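import Pool.Agent.W660.FQ.T4_PRJ

/-!
Quotients of Lie groups, task QC: the quotient chart.
-/

namespace Pool.Agent.W660.FQ

open Pool.Agent.W660.FL
open MeasureTheory Complex Filter Topology
open scoped Manifold ContDiff

noncomputable section

variable (Q : Type) [Group Q] [TopologicalSpace Q] [IsTopologicalGroup Q] [T2Space Q]
  (E : Type) [NormedAddCommGroup E] [NormedSpace ℝ E] [FiniteDimensional ℝ E]

namespace TQCx

theorem symm_zero {Q E : Type} [Group Q] [TopologicalSpace Q] [NormedAddCommGroup E]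
    [NormedSpace ℝ E] (C : LieChart Q E) : C.κ.symm 0 = 1 := by
  rw [← C.map_one]
  exact C.κ.left_inv C.one_mem

end TQCx

theorem t4_QC2 : S4_PRJ2 Q E → S4_QC Q E := by
  intro hPRJ C K _ hK
  obtain ⟨F, p, r, hr, hball, hp, hpcc, hp0, hpb, hdec, hinj⟩ := hPRJ C K hK
  refine ⟨F, ?_⟩
  have hmk : ∀ (l : Q), l ∈ K → ∀ x : Q, ((l * x : Q) : Q ⧸ K) = (x : Q ⧸ K) := by
    intro l hl x
    rw [QuotientGroup.mk_mul, (QuotientGroup.eq_one_iff l).2 hl, one_mul]
  have hmk2 : ∀ x y : Q, (x : Q ⧸ K) = (y : Q ⧸ K) → x * y⁻¹ ∈ K := by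
    intro x y h
    rw [← QuotientGroup.eq_one_iff, QuotientGroup.mk_mul, QuotientGroup.mk_inv, h,
      mul_inv_cancel]
  let σ : F → Q ⧸ K := fun b => ((C.κ.symm (b : E) : Q) : Q ⧸ K)
  have hσp : ∀ a : E, ‖a‖ < r → ((C.κ.symm a : Q) : Q ⧸ K) = σ (p a) := by
    intro a ha
    obtain ⟨_, l, hl, he⟩ := hdec a ha
    show ((C.κ.symm a : Q) : Q ⧸ K) = ((C.κ.symm ((p a : F) : E) : Q) : Q ⧸ K)
    rw [he, hmk l hl]
  have hnF : ∀ b : F, ‖(b : E)‖ = ‖b‖ := fun b => rfl
  have hσinj : Set.InjOn σ (Metric.ball (0 : F) r) := by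
    intro b hb b' hb' h
    exact hinj b b' (mem_ball_zero_iff.1 hb) (mem_ball_zero_iff.1 hb') (hmk2 _ _ h)
  have hmemT : ∀ b : F, b ∈ Metric.ball (0 : F) r → (b : E) ∈ C.κ.target := by
    intro b hb
    apply hball
    rw [mem_ball_zero_iff, hnF]
    exact mem_ball_zero_iff.1 hb
  have hσc : ContinuousOn σ (Metric.ball (0 : F) r) := by
    intro b hb
    have h1 : ContinuousAt C.κ.symm (b : E) := C.κ.symm.continuousAt (hmemT b hb)
    have h2 : ContinuousAt (fun b : F => C.κ.symm (b : E)) b :=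
      ContinuousAt.comp (f := fun b : F => (b : E)) (g := C.κ.symm) h1
        continuous_subtype_val.continuousAt
    exact (QuotientGroup.continuous_mk.continuousAt.comp h2).continuousWithinAt
  have hpc : ∀ b : F, b ∈ Metric.ball (0 : F) r → ContinuousAt p (b : E) := by
    intro b hb
    refine (hpcc.continuousAt (Metric.isOpen_ball.mem_nhds ?_))
    rw [mem_ball_zero_iff, hnF]
    exact mem_ball_zero_iff.1 hb
  have hσn : ∀ b : F, b ∈ Metric.ball (0 : F) r → ∀ U ∈ 𝓝 b, σ '' U ∈ 𝓝 (σ b) := by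
    intro b hb U hU
    have hbr : ‖b‖ < r := mem_ball_zero_iff.1 hb
    have h1 : {a : E | ‖a‖ < r ∧ p a ∈ U} ∈ 𝓝 (b : E) := by
      have h2 : ∀ᶠ a in 𝓝 (b : E), p a ∈ U := by
        have h3 := hpc b hb
        unfold ContinuousAt at h3
        rw [hpb b hbr] at h3
        exact h3 hU
      have h4 : ∀ᶠ a in 𝓝 (b : E), ‖a‖ < r := by
        have h5 : Metric.ball (0 : E) r ∈ 𝓝 (b : E) := by
          refine Metric.isOpen_ball.mem_nhds ?_
          rw [mem_ball_zero_iff, hnF]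
          exact hbr
        filter_upwards [h5] with a ha
        exact mem_ball_zero_iff.1 ha
      exact h4.and h2
    have h6 : C.κ.symm '' {a : E | ‖a‖ < r ∧ p a ∈ U} ∈ 𝓝 (C.κ.symm (b : E)) :=
      C.κ.symm.image_mem_nhds (hmemT b hb) h1
    have h7 := (QuotientGroup.isOpenMap_coe (N := K)).image_mem_nhds h6
    refine Filter.mem_of_superset h7 ?_
    rintro _ ⟨_, ⟨a, ha, rfl⟩, rfl⟩
    exact ⟨p a, ha.2, (hσp a ha.1).symm⟩
  let e : PartialEquiv F (Q ⧸ K) := hσinj.toPartialEquiv σ (Metric.ball (0 : F) r)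
  have ho : IsOpenMap (e.source.restrict e) := by
    rw [isOpenMap_iff_nhds_le]
    intro b U hU
    have h1 : (e.source.restrict e) ⁻¹' U ∈ 𝓝 b := hU
    rw [nhds_subtype_eq_comap, Filter.mem_comap] at h1
    obtain ⟨V, hV, hVU⟩ := h1
    have hb : (b : F) ∈ Metric.ball (0 : F) r := b.2
    have h2 : V ∩ Metric.ball (0 : F) r ∈ 𝓝 (b : F) :=
      Filter.inter_mem hV (Metric.isOpen_ball.mem_nhds hb)
    have h3 := hσn (b : F) hb _ h2
    refine Filter.mem_of_superset h3 ?_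
    rintro _ ⟨c, ⟨hc1, hc2⟩, rfl⟩
    exact hVU (show (⟨c, hc2⟩ : e.source) ∈ Subtype.val ⁻¹' V from hc1)
  let κ2 : OpenPartialHomeomorph (Q ⧸ K) F :=
    (OpenPartialHomeomorph.ofContinuousOpenRestrict e hσc ho Metric.isOpen_ball).symm
  have hk1 : ∀ b : F, κ2.symm b = σ b := fun b => rfl
  have hk2 : ∀ b : F, ‖b‖ < r → κ2 (σ b) = b := by
    intro b hb
    exact e.left_inv (show b ∈ e.source from mem_ball_zero_iff.2 hb)
  have hk3 : ∀ b : F, ‖b‖ < r → σ b ∈ κ2.source := by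
    intro b hb
    exact e.map_source (show b ∈ e.source from mem_ball_zero_iff.2 hb)
  have hs0 : C.κ.symm 0 = 1 := TQCx.symm_zero C
  have hσ0 : σ 0 = 1 := by
    show ((C.κ.symm ((0 : F) : E) : Q) : Q ⧸ K) = 1
    rw [Submodule.coe_zero, hs0]
    rfl
  -- the main smoothness lemma
  have key : ∀ (X : Type) [NormedAddCommGroup X] [NormedSpace ℝ X] (m : X → Q) (x₀ : X),
      ContinuousAt m x₀ → m x₀ = 1 → ContDiffAt ℝ ∞ (fun x => C.κ (m x)) x₀ →
      ContDiffAt ℝ ∞ (fun x => κ2 ((m x : Q) : Q ⧸ K)) x₀ := by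
    intro X _ _ m x₀ hm hm0 hsm
    have hz : C.κ (m x₀) = 0 := by rw [hm0, C.map_one]
    have hpz : ContDiffAt ℝ ∞ p (C.κ (m x₀)) := by
      rw [hz]
      exact hp
    have hcomp : ContDiffAt ℝ ∞ (fun x => p (C.κ (m x))) x₀ := hpz.comp x₀ hsm
    refine hcomp.congr_of_eventuallyEq ?_
    have e1 : ∀ᶠ x in 𝓝 x₀, m x ∈ C.κ.source := by
      refine hm.eventually ?_
      rw [hm0]
      exact C.κ.open_source.mem_nhds C.one_mem
    have e2 : ∀ᶠ x in 𝓝 x₀, ‖C.κ (m x)‖ < r := by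
      have h1 := hsm.continuousAt.norm
      refine h1.eventually (gt_mem_nhds ?_)
      show ‖C.κ (m x₀)‖ < r
      rw [hz, norm_zero]
      exact hr
    have e3 : ∀ᶠ x in 𝓝 x₀, ‖p (C.κ (m x))‖ < r := by
      have h1 := hcomp.continuousAt.norm
      refine h1.eventually (gt_mem_nhds ?_)
      show ‖p (C.κ (m x₀))‖ < r
      rw [hz, hp0, norm_zero]
      exact hr
    filter_upwards [e1, e2, e3] with x h1 h2 h3
    have h4 : ((m x : Q) : Q ⧸ K) = σ (p (C.κ (m x))) := by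
      rw [← hσp _ h2, C.κ.left_inv h1]
    show κ2 ((m x : Q) : Q ⧸ K) = p (C.κ (m x))
    rw [h4, hk2 _ h3]
  have h0T : (0 : E) ∈ C.κ.target := hball (Metric.mem_ball_self hr)
  have hsc : ContinuousAt C.κ.symm (0 : E) := C.κ.symm.continuousAt h0T
  have hscF : ContinuousAt (fun b : F => C.κ.symm (b : E)) 0 :=
    ContinuousAt.comp (f := fun b : F => (b : E)) (g := C.κ.symm) (x := (0 : F)) hsc
      continuous_subtype_val.continuousAt
  have hsF0 : C.κ.symm ((0 : F) : E) = 1 := hs0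
  refine ⟨{ κ := κ2, one_mem := ?_, map_one := ?_, mul := ?_, inv := ?_, cnj := ?_ }⟩
  · have := hk3 0 (by rw [norm_zero]; exact hr)
    rwa [hσ0] at this
  · have := hk2 0 (by rw [norm_zero]; exact hr)
    rwa [hσ0] at this
  · have h1 : ContinuousAt (fun q : F × F => C.κ.symm (q.1 : E) * C.κ.symm (q.2 : E)) (0, 0) := by
      have ha : ContinuousAt (fun q : F × F => C.κ.symm (q.1 : E)) (0, 0) :=
        ContinuousAt.comp (f := fun q : F × F => q.1) (g := fun b : F => C.κ.symm (b : E))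
          (x := ((0, 0) : F × F)) hscF continuousAt_fst
      have hb : ContinuousAt (fun q : F × F => C.κ.symm (q.2 : E)) (0, 0) :=
        ContinuousAt.comp (f := fun q : F × F => q.2) (g := fun b : F => C.κ.symm (b : E))
          (x := ((0, 0) : F × F)) hscF continuousAt_snd
      exact ha.mul hb
    have h2 : ContDiffAt ℝ ∞ (fun q : F × F =>
        C.κ (C.κ.symm (q.1 : E) * C.κ.symm (q.2 : E))) (0, 0) := by
      have h3 : ContDiffAt ℝ ∞ (fun q : F × F => ((q.1 : E), (q.2 : E))) (0, 0) :=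
        ((F.subtypeL.prodMap F.subtypeL).contDiff).contDiffAt
      exact ContDiffAt.comp (f := fun q : F × F => ((q.1 : E), (q.2 : E)))
        (g := fun p : E × E => C.κ (C.κ.symm p.1 * C.κ.symm p.2)) (0, 0) C.mul h3
    exact key (F × F) (fun q => C.κ.symm (q.1 : E) * C.κ.symm (q.2 : E)) (0, 0) h1
      (by show C.κ.symm ((0 : F) : E) * C.κ.symm ((0 : F) : E) = 1; rw [hsF0, mul_one]) h2
  · have h2 : ContDiffAt ℝ ∞ (fun b : F => C.κ (C.κ.symm (b : E))⁻¹) 0 :=
      ContDiffAt.comp (f := fun b : F => (b : E)) (g := fun a : E => C.κ (C.κ.symm a)⁻¹)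
        (0 : F) C.inv F.subtypeL.contDiff.contDiffAt
    exact key F (fun b => (C.κ.symm (b : E))⁻¹) 0 hscF.inv
      (by show (C.κ.symm ((0 : F) : E))⁻¹ = 1; rw [hsF0, inv_one]) h2
  · intro g
    obtain ⟨g, rfl⟩ := QuotientGroup.mk_surjective g
    have h2 : ContDiffAt ℝ ∞ (fun b : F => C.κ (g * C.κ.symm (b : E) * g⁻¹)) 0 :=
      ContDiffAt.comp (f := fun b : F => (b : E)) (g := fun a : E => C.κ (g * C.κ.symm a * g⁻¹))
        (0 : F) (C.cnj g) F.subtypeL.contDiff.contDiffAt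
    exact key F (fun b => g * C.κ.symm (b : E) * g⁻¹) 0
      ((continuousAt_const.mul hscF).mul continuousAt_const)
      (by show g * C.κ.symm ((0 : F) : E) * g⁻¹ = 1; rw [hsF0, mul_one, mul_inv_cancel]) h2

end

end Pool.Agent.W660.FQ
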