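import Pool.Agent.W660.FQ.Stm
import Pool.Agent.W660.FL.T_ODE

/-!
Convergence of powers to one-parameter subgroups (project FQ, part EUL).  The powers of `x n` are
compared with the powers of `γ (h n)`.
-/

set_option linter.unusedSectionVars false

namespace Pool.Agent.W660.FQ

open Pool.Agent.W660.FL
open MeasureTheory Complex Filter Topology
open scoped Manifold ContDiff

noncomputable section

namespace TEUL

open Pool.Agent.W660.FL.TODE

section

variable {G : Type} [Group G] [TopologicalSpace G] [IsTopologicalGroup G]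
  {E : Type} [NormedAddCommGroup E] [NormedSpace ℝ E]

/-- estimates for the multiplication -/
theorem est (C : LieChart G E) : ∃ r > 0, ∃ L : ℝ, 0 ≤ L ∧
    (∀ a v : E, ‖a‖ < r → ‖v‖ < r → F4 C (a, v)) ∧
    (∀ a b v : E, ‖a‖ < r → ‖b‖ < r → ‖v‖ < r →
      ‖M C (a, v) - M C (b, v)‖ ≤ (1 + L * ‖v‖) * ‖a - b‖) ∧
    (∀ b v w : E, ‖b‖ < r → ‖v‖ < r → ‖w‖ < r →
      ‖M C (b, v) - M C (b, w)‖ ≤ L * ‖v - w‖) := by
  obtain ⟨K1, S1, hS1, hL1⟩ := ((contDiffAt_M C).of_le (m := 1) (by norm_num)).exists_lipschitzOnWith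
  have hf : ContDiffAt ℝ 1 (fderiv ℝ (M C)) ((0 : E), (0 : E)) :=
    (contDiffAt_M C).fderiv_right (by norm_num)
  obtain ⟨K2, S2, hS2, hL2⟩ := hf.exists_lipschitzOnWith
  have hdiff : ∀ᶠ p in 𝓝 ((0, 0) : E × E), DifferentiableAt ℝ (M C) p := by
    filter_upwards [(contDiffAt_M C).eventually (by norm_num)] with p hp
    exact hp.differentiableAt (by norm_num)
  have hev : ∀ᶠ p in 𝓝 ((0, 0) : E × E), p ∈ S1 ∧ p ∈ S2 ∧ DifferentiableAt ℝ (M C) p ∧ F4 C p := by
    filter_upwards [hS1, hS2, hdiff, F4_ev C] with p a b c d using ⟨a, b, c, d⟩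
  obtain ⟨r, hr, hball⟩ := Metric.eventually_nhds_iff.1 hev
  have hg : ∀ a v : E, ‖a‖ < r → ‖v‖ < r →
      (a, v) ∈ S1 ∧ (a, v) ∈ S2 ∧ DifferentiableAt ℝ (M C) (a, v) ∧ F4 C (a, v) := by
    intro a v ha hv
    refine hball (y := (a, v)) ?_
    rw [Prod.dist_eq, dist_zero_right, dist_zero_right]
    exact max_lt ha hv
  have hz : ‖(0 : E)‖ < r := by rw [norm_zero]; exact hr
  refine ⟨r, hr, max K1 K2, le_max_of_le_left K1.2, fun a v ha hv => (hg a v ha hv).2.2.2, ?_, ?_⟩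
  · intro a b v ha hb hv
    have hmv : ‖(M C (a, v) - M C (a, 0)) - (M C (b, v) - M C (b, 0))‖ ≤
        ((K2 : ℝ) * ‖v‖) * ‖a - b‖ := by
      refine Convex.norm_image_sub_le_of_norm_hasFDerivWithin_le (𝕜 := ℝ)
        (f := fun a => M C (a, v) - M C (a, 0)) (s := Metric.ball (0 : E) r) (x := b) (y := a)
        (f' := fun a => (fderiv ℝ (M C) (a, v)).comp (ContinuousLinearMap.inl ℝ E E) -
          (fderiv ℝ (M C) (a, 0)).comp (ContinuousLinearMap.inl ℝ E E)) ?_ ?_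
        (convex_ball _ _) (by simpa using hb) (by simpa using ha)
      · intro y hy
        have hy' : ‖y‖ < r := by simpa using hy
        have h1 := (hg y v hy' hv).2.2.1.hasFDerivAt
        have h2 := (hg y 0 hy' hz).2.2.1.hasFDerivAt
        have h3 : HasFDerivAt (fun a : E => M C (a, v))
            ((fderiv ℝ (M C) (y, v)).comp (ContinuousLinearMap.inl ℝ E E)) y :=
          HasFDerivAt.comp (f := fun a : E => (a, v)) y h1 (hasFDerivAt_prodMk_left y v)
        have h4 : HasFDerivAt (fun a : E => M C (a, 0))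
            ((fderiv ℝ (M C) (y, 0)).comp (ContinuousLinearMap.inl ℝ E E)) y :=
          HasFDerivAt.comp (f := fun a : E => (a, (0 : E))) y h2 (hasFDerivAt_prodMk_left y 0)
        exact (h3.sub h4).hasFDerivWithinAt
      · intro y hy
        have hy' : ‖y‖ < r := by simpa using hy
        rw [← ContinuousLinearMap.sub_comp]
        refine (ContinuousLinearMap.opNorm_comp_le _ _).trans ?_
        have h3 := hL2.dist_le_mul _ (hg y v hy' hv).2.1 _ (hg y 0 hy' hz).2.1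
        rw [dist_eq_norm, Prod.dist_eq, dist_self, dist_zero_right,
          max_eq_right (norm_nonneg _)] at h3
        have h4 : ‖ContinuousLinearMap.inl ℝ E E‖ ≤ 1 := ContinuousLinearMap.norm_inl_le_one ℝ E E
        calc _ ≤ ((K2 : ℝ) * ‖v‖) * 1 := mul_le_mul h3 h4 (norm_nonneg _) (by positivity)
          _ = _ := mul_one _
    rw [M_zero_right C (hg a v ha hv).2.2.2.1, M_zero_right C (hg b v hb hv).2.2.2.1] at hmv
    have h5 : M C (a, v) - M C (b, v) = (M C (a, v) - a) - (M C (b, v) - b) + (a - b) := by abel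
    rw [h5]
    refine (norm_add_le _ _).trans ?_
    have h6 : (K2 : ℝ) * ‖v‖ * ‖a - b‖ ≤ max (K1 : ℝ) K2 * ‖v‖ * ‖a - b‖ := by
      gcongr
      exact le_max_right _ _
    calc _ ≤ max (K1 : ℝ) K2 * ‖v‖ * ‖a - b‖ + ‖a - b‖ := by linarith
      _ = _ := by ring
  · intro b v w hb hv hw
    have h3 := hL1.dist_le_mul _ (hg b v hb hv).1 _ (hg b w hb hw).1
    rw [dist_eq_norm, Prod.dist_eq, dist_self, dist_eq_norm, max_eq_right (norm_nonneg _)] at h3
    refine h3.trans ?_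
    gcongr
    exact le_max_left _ _

theorem main_est (C : LieChart G E) {r L : ℝ} (hL : 0 ≤ L)
    (h1 : ∀ a v : E, ‖a‖ < r → ‖v‖ < r → F4 C (a, v))
    (h2 : ∀ a b v : E, ‖a‖ < r → ‖b‖ < r → ‖v‖ < r →
      ‖M C (a, v) - M C (b, v)‖ ≤ (1 + L * ‖v‖) * ‖a - b‖)
    (h3 : ∀ b v w : E, ‖b‖ < r → ‖v‖ < r → ‖w‖ < r →
      ‖M C (b, v) - M C (b, w)‖ ≤ L * ‖v - w‖)
    {γ : ℝ → G} (hγ : ∀ s t, γ (s + t) = γ s * γ t) (hγ0 : γ 0 = 1) {t0 : ℝ}
    (hγs : ∀ s, 0 ≤ s → s ≤ t0 → γ s ∈ C.κ.source ∧ ‖C.κ (γ s)‖ < r / 2)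
    {x : G} {h c e : ℝ} (hh : 0 < h) (hht : h ≤ t0) (hc : 0 ≤ c) (he : 0 ≤ e)
    (hx : x ∈ C.κ.source) (hxr : ‖C.κ x‖ < r) (hxc : ‖C.κ x‖ ≤ c * h)
    (hxe : ‖C.κ x - C.κ (γ h)‖ ≤ e * h)
    (hsm : t0 * L * e * Real.exp (L * c * t0) < r / 2) : ∀ m : ℕ, m * h ≤ t0 →
    x ^ m ∈ C.κ.source ∧
      ‖C.κ (x ^ m) - C.κ (γ (m * h))‖ ≤ (m * h) * L * e * Real.exp (L * c * (m * h)) := by
  have ht0 : 0 < t0 := hh.trans_le hht
  have hr0 : 0 < r := lt_of_le_of_lt (norm_nonneg _) hxr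
  intro m
  induction m with
  | zero =>
    intro _
    rw [pow_zero, Nat.cast_zero, zero_mul, hγ0, sub_self, norm_zero, zero_mul, zero_mul, zero_mul]
    exact ⟨C.one_mem, le_rfl⟩
  | succ m ih =>
    intro hm
    have hm' : (m : ℝ) * h ≤ t0 := by
      push_cast at hm
      nlinarith
    have hm0 : 0 ≤ (m : ℝ) * h := by positivity
    obtain ⟨i1, i2⟩ := ih hm'
    obtain ⟨g1, g2⟩ := hγs _ hm0 hm'
    obtain ⟨g3, g4⟩ := hγs h hh.le hht
    have i3 : (m * h) * L * e * Real.exp (L * c * (m * h)) ≤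
        t0 * L * e * Real.exp (L * c * t0) := by
      gcongr
    have i4 : ‖C.κ (x ^ m)‖ < r := by
      have := norm_add_le (C.κ (x ^ m) - C.κ (γ (m * h))) (C.κ (γ (m * h)))
      rw [sub_add_cancel] at this
      linarith
    have g2' : ‖C.κ (γ (m * h))‖ < r := by linarith
    have g4' : ‖C.κ (γ h)‖ < r := by linarith
    have hf1 := h1 _ _ i4 hxr
    have hf2 := h1 _ _ g2' g4'
    have e1 : x ^ (m + 1) ∈ C.κ.source ∧ C.κ (x ^ (m + 1)) = M C (C.κ (x ^ m), C.κ x) := by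
      have h4 := hf1.2.2
      simp only at h4
      rw [C.κ.left_inv i1, C.κ.left_inv hx] at h4
      refine ⟨by rw [pow_succ]; exact h4, ?_⟩
      unfold M
      simp only
      rw [C.κ.left_inv i1, C.κ.left_inv hx, pow_succ]
    have e2 : C.κ (γ ((m + 1 : ℕ) * h)) = M C (C.κ (γ (m * h)), C.κ (γ h)) := by
      unfold M
      simp only
      rw [C.κ.left_inv g1, C.κ.left_inv g3, ← hγ]
      congr 2
      push_cast
      ring
    refine ⟨e1.1, ?_⟩
    rw [e1.2, e2]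
    have f1 := h2 _ _ _ i4 g2' hxr
    have f2 := h3 _ _ _ g2' hxr g4'
    have f3 := norm_add_le (M C (C.κ (x ^ m), C.κ x) - M C (C.κ (γ (m * h)), C.κ x))
      (M C (C.κ (γ (m * h)), C.κ x) - M C (C.κ (γ (m * h)), C.κ (γ h)))
    rw [sub_add_sub_cancel] at f3
    set d := ‖C.κ (x ^ m) - C.κ (γ (m * h))‖ with hd
    have hd0 : 0 ≤ d := norm_nonneg _
    have f4 : (1 + L * ‖C.κ x‖) * d ≤ Real.exp (L * c * h) *
        ((m * h) * L * e * Real.exp (L * c * (m * h))) := by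
      have k1 : 1 + L * ‖C.κ x‖ ≤ Real.exp (L * c * h) := by
        have k2 : L * ‖C.κ x‖ ≤ L * (c * h) := mul_le_mul_of_nonneg_left hxc hL
        have k3 := Real.add_one_le_exp (L * c * h)
        nlinarith
      exact mul_le_mul k1 i2 hd0 (Real.exp_pos _).le
    have f5 : L * ‖C.κ x - C.κ (γ h)‖ ≤ h * L * e * Real.exp (L * c * ((m + 1 : ℕ) * h)) := by
      have k1 : L * ‖C.κ x - C.κ (γ h)‖ ≤ L * (e * h) := mul_le_mul_of_nonneg_left hxe hL
      have k2 : 1 ≤ Real.exp (L * c * ((m + 1 : ℕ) * h)) := Real.one_le_exp (by positivity)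
      have k3 : 0 ≤ h * L * e := by positivity
      calc L * ‖C.κ x - C.κ (γ h)‖ ≤ L * (e * h) := k1
        _ = h * L * e * 1 := by ring
        _ ≤ _ := mul_le_mul_of_nonneg_left k2 k3
    have f6 : Real.exp (L * c * h) * ((m * h) * L * e * Real.exp (L * c * (m * h))) =
        (m * h) * L * e * Real.exp (L * c * ((m + 1 : ℕ) * h)) := by
      have k1 : L * c * ((m + 1 : ℕ) * h) = L * c * h + L * c * (m * h) := by
        push_cast
        ring
      rw [k1, Real.exp_add]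
      ring
    rw [f6] at f4
    have f7 : ((m + 1 : ℕ) * h) * L * e * Real.exp (L * c * ((m + 1 : ℕ) * h)) =
        (m * h) * L * e * Real.exp (L * c * ((m + 1 : ℕ) * h)) +
          h * L * e * Real.exp (L * c * ((m + 1 : ℕ) * h)) := by
      push_cast
      ring
    rw [f7]
    linarith

theorem one_zero {γ : ℝ → G} (hγ : IsOne γ) : γ 0 = 1 := by
  have h := hγ.2 0 0
  rw [add_zero] at h
  exact (left_eq_mul.1 h)

theorem one_pow {γ : ℝ → G} (hγ : IsOne γ) (t : ℝ) (j : ℕ) : γ t ^ j = γ (j * t) := by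
  induction j with
  | zero => rw [pow_zero, Nat.cast_zero, zero_mul, one_zero hγ]
  | succ j ih =>
    rw [pow_succ, ih, ← hγ.2]
    congr 1
    push_cast
    ring

/-- bounded powers of a sequence converging to the identity -/
theorem bd_pow {x : ℕ → G} (hx : Tendsto x atTop (𝓝 1)) (j : ℕ) {r : ℕ → ℕ} (hr : ∀ n, r n ≤ j) :
    Tendsto (fun n => x n ^ r n) atTop (𝓝 1) := by
  rw [tendsto_def]
  intro V hV
  have h1 : ∀ k : ℕ, ∀ᶠ n in atTop, x n ^ k ∈ V := by
    intro k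
    have := hx.pow k
    rw [_root_.one_pow] at this
    exact this hV
  have h2 : ∀ᶠ n in atTop, ∀ k ∈ Finset.range (j + 1), x n ^ k ∈ V :=
    (Filter.eventually_all_finset _).2 fun k _ => h1 k
  filter_upwards [h2] with n hn
  exact hn _ (Finset.mem_range.2 (by have := hr n; omega))

end

end TEUL

open TEUL Pool.Agent.W660.FL.TODE in
theorem t4_EUL {Q : Type} [Group Q] [TopologicalSpace Q] [IsTopologicalGroup Q] [T2Space Q]
    {E : Type} [NormedAddCommGroup E] [NormedSpace ℝ E] [FiniteDimensional ℝ E] :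
    S4_EUL Q E := by
  intro C X x h hh hh0 hx1 hxX γ hγ hγX
  obtain ⟨r, hr, L, hL, h1, h2, h3⟩ := est C
  have hγ0 := one_zero hγ
  -- the time
  have hκ1 : ContinuousAt C.κ 1 := C.κ.continuousAt C.one_mem
  have hev : ∀ᶠ s in 𝓝 (0 : ℝ), γ s ∈ C.κ.source ∧ ‖C.κ (γ s)‖ < r / 2 := by
    have hγc : Tendsto γ (𝓝 0) (𝓝 1) := by
      have := hγ.1.tendsto 0
      rwa [hγ0] at this
    have e1 : ∀ᶠ s in 𝓝 (0 : ℝ), γ s ∈ C.κ.source :=
      hγc (C.κ.open_source.mem_nhds C.one_mem)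
    have e2 : Tendsto (fun s => ‖C.κ (γ s)‖) (𝓝 0) (𝓝 0) := by
      have := (hκ1.tendsto.comp hγc).norm
      rw [C.map_one, norm_zero] at this
      exact this
    filter_upwards [e1, e2.eventually (gt_mem_nhds (show 0 < r / 2 by linarith))] with s a b
      using ⟨a, b⟩
  obtain ⟨ρ, hρ, hball⟩ := Metric.eventually_nhds_iff.1 hev
  set t0 : ℝ := ρ / 2 with ht0
  have ht00 : 0 < t0 := by positivity
  have hγs : ∀ s, 0 ≤ s → s ≤ t0 → γ s ∈ C.κ.source ∧ ‖C.κ (γ s)‖ < r / 2 := by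
    intro s hs hst
    refine hball ?_
    rw [Real.dist_eq, sub_zero, abs_of_nonneg hs]
    linarith
  -- the errors
  set c : ℝ := ‖X‖ + 1 with hc
  have hc0 : 0 ≤ c := by positivity
  set e : ℕ → ℝ := fun n => ‖C.κ (x n) - C.κ (γ (h n))‖ / h n with he
  have he0 : ∀ n, 0 ≤ e n := fun n => div_nonneg (norm_nonneg _) (hh n).le
  have het : Tendsto e atTop (𝓝 0) := by
    have hh0' : Tendsto h atTop (𝓝[≠] 0) := by
      rw [tendsto_nhdsWithin_iff]
      exact ⟨hh0, Filter.Eventually.of_forall fun n => (hh n).ne'⟩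
    have e1 : Tendsto (fun n => (h n)⁻¹ • C.κ (γ (h n))) atTop (𝓝 X) := by
      have e2 := (hasDerivAt_iff_tendsto_slope.1 hγX).comp hh0'
      refine e2.congr fun n => ?_
      simp only [Function.comp_apply, slope, vsub_eq_sub, sub_zero, hγ0, C.map_one]
    have e3 := (hxX.sub e1).norm
    rw [sub_self, norm_zero] at e3
    refine e3.congr fun n => ?_
    rw [← smul_sub, norm_smul, norm_inv, Real.norm_of_nonneg (hh n).le]
    simp only [he]
    rw [div_eq_inv_mul]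
  have hsm : ∀ᶠ n in atTop, t0 * L * e n * Real.exp (L * c * t0) < r / 2 := by
    have e1 : Tendsto (fun n => t0 * L * e n * Real.exp (L * c * t0)) atTop (𝓝 0) := by
      have := (het.const_mul (t0 * L)).mul_const (Real.exp (L * c * t0))
      simpa using this
    exact e1.eventually (gt_mem_nhds (show 0 < r / 2 by linarith))
  have hκx : Tendsto (fun n => C.κ (x n)) atTop (𝓝 0) := by
    have := hκ1.tendsto.comp hx1
    rw [C.map_one] at this
    exact this
  have hall : ∀ᶠ n in atTop, ∀ m : ℕ, m * h n ≤ t0 → x n ^ m ∈ C.κ.source ∧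
      ‖C.κ (x n ^ m) - C.κ (γ (m * h n))‖ ≤
        (m * h n) * L * e n * Real.exp (L * c * (m * h n)) := by
    have k1 : ∀ᶠ n in atTop, x n ∈ C.κ.source := hx1 (C.κ.open_source.mem_nhds C.one_mem)
    have k2 : ∀ᶠ n in atTop, h n ≤ t0 := hh0.eventually (ge_mem_nhds ht00)
    have k3 : ∀ᶠ n in atTop, ‖C.κ (x n)‖ < r := by
      have := hκx.norm
      rw [norm_zero] at this
      exact this.eventually (gt_mem_nhds hr)
    have k4 : ∀ᶠ n in atTop, ‖C.κ (x n)‖ ≤ c * h n := by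
      have e1 := hxX.norm
      filter_upwards [e1.eventually (ge_mem_nhds (show ‖X‖ < c by rw [hc]; linarith))] with n hn
      rw [norm_smul, norm_inv, Real.norm_of_nonneg (hh n).le, inv_mul_le_iff₀ (hh n)] at hn
      linarith
    filter_upwards [k1, k2, k3, k4, hsm] with n a1 a2 a3 a4 a5
    refine main_est C hL h1 h2 h3 hγ.2 hγ0 hγs (hh n) a2 hc0 (he0 n) a1 a3 a4 ?_ a5
    simp only [he]
    rw [div_mul_cancel₀ _ (hh n).ne']
  -- small times
  have small : ∀ t, 0 ≤ t → t ≤ t0 → Tendsto (fun n => x n ^ ⌊t / h n⌋₊) atTop (𝓝 (γ t)) := by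
    intro t ht htt
    obtain ⟨g1, -⟩ := hγs t ht htt
    have hmle : ∀ n, (⌊t / h n⌋₊ : ℝ) * h n ≤ t := by
      intro n
      have := Nat.floor_le (div_nonneg ht (hh n).le)
      rwa [le_div_iff₀ (hh n)] at this
    have hmge : ∀ n, t - h n ≤ (⌊t / h n⌋₊ : ℝ) * h n := by
      intro n
      have := (Nat.lt_floor_add_one (t / h n)).le
      rw [div_le_iff₀ (hh n)] at this
      linarith
    have hmt : Tendsto (fun n => (⌊t / h n⌋₊ : ℝ) * h n) atTop (𝓝 t) := by
      refine tendsto_of_tendsto_of_tendsto_of_le_of_le ?_ tendsto_const_nhds hmge hmle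
      have := (tendsto_const_nhds (x := t)).sub hh0
      rwa [sub_zero] at this
    have e1 : Tendsto (fun n => C.κ (γ ((⌊t / h n⌋₊ : ℝ) * h n))) atTop (𝓝 (C.κ (γ t))) :=
      ((C.κ.continuousAt g1).tendsto.comp (hγ.1.tendsto t)).comp hmt
    have e2 : Tendsto (fun n => C.κ (x n ^ ⌊t / h n⌋₊) - C.κ (γ ((⌊t / h n⌋₊ : ℝ) * h n)))
        atTop (𝓝 0) := by
      have e3 : Tendsto (fun n => t0 * L * e n * Real.exp (L * c * t0)) atTop (𝓝 0) := by
        have := (het.const_mul (t0 * L)).mul_const (Real.exp (L * c * t0))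
        simpa using this
      refine squeeze_zero_norm' ?_ e3
      filter_upwards [hall] with n hn
      refine (hn _ ((hmle n).trans htt)).2.trans ?_
      have h5 : (⌊t / h n⌋₊ : ℝ) * h n ≤ t0 := (hmle n).trans htt
      have h6 : 0 ≤ (⌊t / h n⌋₊ : ℝ) * h n := mul_nonneg (Nat.cast_nonneg _) (hh n).le
      have h7 := he0 n
      gcongr
    have e4 : Tendsto (fun n => C.κ (x n ^ ⌊t / h n⌋₊)) atTop (𝓝 (C.κ (γ t))) := by
      have := e2.add e1
      simpa using this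
    have e5 := (C.κ.continuousAt_symm (C.κ.map_source g1)).tendsto.comp e4
    rw [C.κ.left_inv g1] at e5
    refine e5.congr' ?_
    filter_upwards [hall] with n hn
    exact C.κ.left_inv (hn _ ((hmle n).trans htt)).1
  -- all times
  intro t ht
  obtain ⟨j, hj⟩ := exists_nat_gt (t / t0)
  have hj0 : 0 < j := by
    rcases Nat.eq_zero_or_pos j with hj0 | hj0
    · exfalso
      rw [hj0, Nat.cast_zero] at hj
      exact absurd hj (not_lt.2 (div_nonneg ht ht00.le))
    · exact hj0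
  have hjr : (0 : ℝ) < j := by exact_mod_cast hj0
  set t1 : ℝ := t / j with ht1
  have ht10 : 0 ≤ t1 := div_nonneg ht hjr.le
  have ht1t : t1 ≤ t0 := by
    rw [ht1, div_le_iff₀ hjr]
    rw [div_lt_iff₀ ht00] at hj
    linarith
  have hjt : (j : ℝ) * t1 = t := by
    rw [ht1]
    field_simp
  have hs := (small t1 ht10 ht1t).pow j
  rw [TEUL.one_pow hγ, hjt] at hs
  -- the floor
  have hfl1 : ∀ n, j * ⌊t1 / h n⌋₊ ≤ ⌊t / h n⌋₊ := by
    intro n
    rw [Nat.le_floor_iff (div_nonneg ht (hh n).le)]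
    have := Nat.floor_le (div_nonneg ht10 (hh n).le)
    push_cast
    calc (j : ℝ) * (⌊t1 / h n⌋₊ : ℝ) ≤ j * (t1 / h n) := mul_le_mul_of_nonneg_left this hjr.le
      _ = t / h n := by rw [← mul_div_assoc, hjt]
  have hfl2 : ∀ n, ⌊t / h n⌋₊ - j * ⌊t1 / h n⌋₊ ≤ j := by
    intro n
    have h5 := Nat.lt_floor_add_one (t1 / h n)
    have h6 := Nat.floor_le (div_nonneg ht (hh n).le)
    have h7 : (⌊t / h n⌋₊ : ℝ) ≤ ((j * ⌊t1 / h n⌋₊ + j : ℕ) : ℝ) := by
      push_cast
      calc (⌊t / h n⌋₊ : ℝ) ≤ t / h n := h6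
        _ = j * (t1 / h n) := by rw [← mul_div_assoc, hjt]
        _ ≤ j * (⌊t1 / h n⌋₊ + 1) := mul_le_mul_of_nonneg_left h5.le hjr.le
        _ = _ := by ring
    have h8 : ⌊t / h n⌋₊ ≤ j * ⌊t1 / h n⌋₊ + j := by exact_mod_cast h7
    omega
  have hb := bd_pow hx1 j hfl2
  have hfin := hs.mul hb
  rw [mul_one] at hfin
  refine hfin.congr fun n => ?_
  rw [← pow_mul, ← pow_add]
  congr 1
  have := hfl1 n
  rw [mul_comm]
  omega

end

end Pool.Agent.W660.FQ
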