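import Pool.Agent.W660.FQ.Stm

/-!
The Lie algebra of a closed subgroup is a linear subspace.
-/

namespace Pool.Agent.W660.FQ

open Pool.Agent.W660.FL
open MeasureTheory Complex Filter Topology
open scoped Manifold ContDiff

noncomputable section

namespace TLIN

variable {Q : Type} [Group Q] [TopologicalSpace Q]
  {E : Type} [NormedAddCommGroup E] [NormedSpace ℝ E]

theorem one_zero {γ : ℝ → Q} (h : IsOne γ) : γ 0 = 1 := by
  have h1 := h.2 0 0
  rw [add_zero] at h1
  exact (mul_eq_left.1 h1.symm)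

theorem symm_zero (C : LieChart Q E) : C.κ.symm 0 = 1 := by
  rw [← C.map_one, C.κ.left_inv C.one_mem]

theorem zero_mem_target (C : LieChart Q E) : (0 : E) ∈ C.κ.target := by
  rw [← C.map_one]
  exact C.κ.map_source C.one_mem

theorem deriv_mul (C : LieChart Q E) {X X' : E} {γ γ' : ℝ → Q} (hγ : IsOne γ) (hγ' : IsOne γ')
    (h : HasDerivAt (fun t => C.κ (γ t)) X 0) (h' : HasDerivAt (fun t => C.κ (γ' t)) X' 0) :
    HasDerivAt (fun t => C.κ (γ t * γ' t)) (X + X') 0 := by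
  have hM := (C.mul.differentiableAt (by simp)).hasFDerivAt
  set D := fderiv ℝ (fun p : E × E => C.κ (C.κ.symm p.1 * C.κ.symm p.2)) (0, 0) with hD
  have ht : ∀ᶠ a in 𝓝 (0 : E), a ∈ C.κ.target :=
    C.κ.open_target.mem_nhds (zero_mem_target C)
  have e1 : ∀ u, D (u, 0) = u := by
    intro u
    have h1 : HasFDerivAt (fun a : E => ((a, 0) : E × E)) (ContinuousLinearMap.inl ℝ E E) 0 :=
      (ContinuousLinearMap.inl ℝ E E).hasFDerivAt
    have h2 : HasFDerivAt (fun a : E => C.κ (C.κ.symm a * C.κ.symm 0))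
        (D.comp (ContinuousLinearMap.inl ℝ E E)) 0 := HasFDerivAt.comp (x := (0 : E))
          (f := fun a : E => ((a, 0) : E × E))
          (g := fun p : E × E => C.κ (C.κ.symm p.1 * C.κ.symm p.2)) hM h1
    have h3 : HasFDerivAt (fun a : E => a) (D.comp (ContinuousLinearMap.inl ℝ E E)) 0 := by
      refine h2.congr_of_eventuallyEq ?_
      filter_upwards [ht] with a ha
      rw [symm_zero, mul_one, C.κ.right_inv ha]
    have h4 := h3.unique (hasFDerivAt_id (0 : E))
    have h5 := congrArg (fun L : E →L[ℝ] E => L u) h4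
    simpa using h5
  have e2 : ∀ u, D (0, u) = u := by
    intro u
    have h1 : HasFDerivAt (fun a : E => ((0, a) : E × E)) (ContinuousLinearMap.inr ℝ E E) 0 :=
      (ContinuousLinearMap.inr ℝ E E).hasFDerivAt
    have h2 : HasFDerivAt (fun a : E => C.κ (C.κ.symm 0 * C.κ.symm a))
        (D.comp (ContinuousLinearMap.inr ℝ E E)) 0 := HasFDerivAt.comp (x := (0 : E))
          (f := fun a : E => ((0, a) : E × E))
          (g := fun p : E × E => C.κ (C.κ.symm p.1 * C.κ.symm p.2)) hM h1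
    have h3 : HasFDerivAt (fun a : E => a) (D.comp (ContinuousLinearMap.inr ℝ E E)) 0 := by
      refine h2.congr_of_eventuallyEq ?_
      filter_upwards [ht] with a ha
      rw [symm_zero, one_mul, C.κ.right_inv ha]
    have h4 := h3.unique (hasFDerivAt_id (0 : E))
    have h5 := congrArg (fun L : E →L[ℝ] E => L u) h4
    simpa using h5
  have e3 : D (X, X') = X + X' := by
    have : ((X, X') : E × E) = (X, 0) + (0, X') := by simp
    rw [this, map_add, e1, e2]
  have hp : HasDerivAt (fun t => ((C.κ (γ t), C.κ (γ' t)) : E × E)) (X, X') 0 := h.prodMk h'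
  have hz : ((C.κ (γ 0), C.κ (γ' 0)) : E × E) = (0, 0) := by
    rw [one_zero hγ, one_zero hγ', C.map_one]
  have hM' : HasFDerivAt (fun p : E × E => C.κ (C.κ.symm p.1 * C.κ.symm p.2)) D
      ((C.κ (γ 0), C.κ (γ' 0)) : E × E) := by
    rw [hz]
    exact hM
  have hc := hM'.comp_hasDerivAt (0 : ℝ) hp
  rw [e3] at hc
  refine hc.congr_of_eventuallyEq ?_
  have hs : ∀ {δ : ℝ → Q}, IsOne δ → ∀ᶠ t in 𝓝 (0 : ℝ), δ t ∈ C.κ.source := by
    intro δ hδ
    have h1 : δ 0 ∈ C.κ.source := by rw [one_zero hδ]; exact C.one_mem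
    exact hδ.1.continuousAt.eventually_mem (C.κ.open_source.mem_nhds h1)
  filter_upwards [hs hγ, hs hγ'] with t h1 h2
  simp only [Function.comp_apply]
  rw [C.κ.left_inv h1, C.κ.left_inv h2]

end TLIN

variable (Q : Type) [Group Q] [TopologicalSpace Q] [IsTopologicalGroup Q]
  (E : Type) [NormedAddCommGroup E] [NormedSpace ℝ E]

theorem t4_LIN : S_OPS Q E → S4_EUL Q E → S4_LIN Q E := by
  intro hops heul C K hK
  refine ⟨{
    carrier := {X | ∃ γ : ℝ → Q, IsOne γ ∧ HasDerivAt (fun t => C.κ (γ t)) X 0 ∧ ∀ t, γ t ∈ K}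
    zero_mem' := ?_
    smul_mem' := ?_
    add_mem' := ?_ }, fun X => Iff.rfl⟩
  · rintro X X' ⟨γ, hγ, hd, hk⟩ ⟨γ', hγ', hd', hk'⟩
    obtain ⟨γ3, hγ3, hd3⟩ := hops C (X + X')
    have hmul := TLIN.deriv_mul C hγ hγ' hd hd'
    have hpos : ∀ n : ℕ, (0 : ℝ) < 1 / ((n : ℝ) + 1) := fun n => by positivity
    have hlim : Tendsto (fun n : ℕ => 1 / ((n : ℝ) + 1)) atTop (𝓝 0) :=
      tendsto_one_div_add_atTop_nhds_zero_nat
    have hx1 : Tendsto (fun n : ℕ => γ (1 / ((n : ℝ) + 1)) * γ' (1 / ((n : ℝ) + 1))) atTop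
        (𝓝 1) := by
      have h1 : Tendsto (fun t : ℝ => γ t * γ' t) (𝓝 0) (𝓝 (γ 0 * γ' 0)) :=
        (hγ.1.mul hγ'.1).tendsto 0
      rw [TLIN.one_zero hγ, TLIN.one_zero hγ', one_mul] at h1
      exact h1.comp hlim
    have hsl : Tendsto (fun n : ℕ => (1 / ((n : ℝ) + 1))⁻¹ •
        C.κ (γ (1 / ((n : ℝ) + 1)) * γ' (1 / ((n : ℝ) + 1)))) atTop (𝓝 (X + X')) := by
      have h1 := hmul.tendsto_slope_zero
      have h2 : Tendsto (fun n : ℕ => 1 / ((n : ℝ) + 1)) atTop (𝓝[≠] 0) :=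
        tendsto_nhdsWithin_iff.2 ⟨hlim, Eventually.of_forall fun n => (hpos n).ne'⟩
      have h3 := h1.comp h2
      refine h3.congr fun n => ?_
      simp only [Function.comp_apply]
      rw [zero_add, TLIN.one_zero hγ, TLIN.one_zero hγ', one_mul, C.map_one, sub_zero]
    have hpow := heul C (X + X') (fun n : ℕ => γ (1 / ((n : ℝ) + 1)) * γ' (1 / ((n : ℝ) + 1)))
      (fun n : ℕ => 1 / ((n : ℝ) + 1)) hpos hlim hx1 hsl γ3 hγ3 hd3
    have hnn : ∀ t, 0 ≤ t → γ3 t ∈ K := by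
      intro t ht
      refine hK.mem_of_tendsto (hpow t ht) (Eventually.of_forall fun n => ?_)
      exact K.pow_mem (K.mul_mem (hk _) (hk' _)) _
    refine ⟨γ3, hγ3, hd3, fun t => ?_⟩
    rcases le_total 0 t with ht | ht
    · exact hnn t ht
    · have h1 := hγ3.2 t (-t)
      rw [add_neg_cancel, TLIN.one_zero hγ3] at h1
      rw [eq_inv_of_mul_eq_one_left h1.symm]
      exact K.inv_mem (hnn (-t) (by linarith))
  · refine ⟨fun _ => 1, ⟨continuous_const, fun s t => (one_mul 1).symm⟩, ?_, fun t => K.one_mem⟩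
    exact hasDerivAt_const _ _
  · rintro c X ⟨γ, hγ, hd, hk⟩
    refine ⟨fun t => γ (c * t), ⟨hγ.1.comp (continuous_const_mul c), fun s t => ?_⟩, ?_,
      fun t => hk _⟩
    · change γ (c * (s + t)) = γ (c * s) * γ (c * t)
      rw [mul_add, hγ.2]
    · have h1 : HasDerivAt (fun t : ℝ => c * t) c 0 := by
        simpa using (hasDerivAt_id (0 : ℝ)).const_mul c
      have h2 : HasDerivAt (fun t => C.κ (γ t)) X (c * 0) := by rw [mul_zero]; exact hd
      exact h2.scomp (0 : ℝ) h1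

end

end Pool.Agent.W660.FQ
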