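import Pool.Agent.W660.FQ.Stm

/-!
A closed subgroup is transversal to a complement of its Lie algebra.
-/

namespace Pool.Agent.W660.FQ

open Pool.Agent.W660.FL
open MeasureTheory Complex Filter Topology
open scoped Manifold ContDiff

noncomputable section

variable (Q : Type) [Group Q] [TopologicalSpace Q] [IsTopologicalGroup Q] [T2Space Q]
  (E : Type) [NormedAddCommGroup E] [NormedSpace ℝ E] [FiniteDimensional ℝ E]

theorem t4_LOC : S_OPS Q E → S4_EUL Q E → S4_LOC Q E := by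
  intro hO hE C K hK k hk F hF
  by_contra hcon
  push Not at hcon
  have hex : ∀ n : ℕ, ∃ b : E, b ∈ F ∧ ‖b‖ < 1 / ((n : ℝ) + 1) ∧ C.κ.symm b ∈ K ∧ b ≠ 0 := by
    intro n
    obtain ⟨b, hbF, hbr, hbK, hb0⟩ := hcon (1 / ((n : ℝ) + 1)) (by positivity)
    exact ⟨b, hbF, hbr, hbK, hb0⟩
  choose b hbF hbr hbK hb0 using hex
  haveI : ProperSpace E := FiniteDimensional.proper_real E
  have hsph : ∀ n, (‖b n‖)⁻¹ • b n ∈ Metric.sphere (0 : E) 1 := by
    intro n
    have h1 : ‖b n‖ ≠ 0 := norm_ne_zero_iff.mpr (hb0 n)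
    simp only [mem_sphere_iff_norm, sub_zero, norm_smul, norm_inv, norm_norm]
    exact inv_mul_cancel₀ h1
  obtain ⟨X, hXs, φ, hφ, hφX⟩ := (isCompact_sphere (0 : E) 1).tendsto_subseq hsph
  have hXn : ‖X‖ = 1 := by simpa using hXs
  have hXF : X ∈ F := by
    have hcl : IsClosed (F : Set E) := Submodule.closed_of_finiteDimensional F
    refine hcl.mem_of_tendsto hφX (Eventually.of_forall fun n => ?_)
    exact F.smul_mem _ (hbF (φ n))
  -- the sequence tends to `0`
  have hbn : Tendsto (fun n => ‖b n‖) atTop (𝓝 0) := by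
    refine squeeze_zero (fun n => norm_nonneg _) (fun n => (hbr n).le) ?_
    exact tendsto_one_div_add_atTop_nhds_zero_nat
  have hbφn : Tendsto (fun n => ‖b (φ n)‖) atTop (𝓝 0) := hbn.comp hφ.tendsto_atTop
  have hbφ : Tendsto (fun n => b (φ n)) atTop (𝓝 0) := tendsto_zero_iff_norm_tendsto_zero.mpr hbφn
  have h0t : (0 : E) ∈ C.κ.target := by
    have h1 := C.κ.map_source C.one_mem
    rwa [C.map_one] at h1
  have hs0 : C.κ.symm 0 = 1 := by
    have h1 := C.κ.left_inv C.one_mem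
    rwa [C.map_one] at h1
  have hx : Tendsto (fun n => C.κ.symm (b (φ n))) atTop (𝓝 1) := by
    have h1 : Tendsto C.κ.symm (𝓝 0) (𝓝 (C.κ.symm 0)) := C.κ.continuousAt_symm h0t
    rw [hs0] at h1
    exact h1.comp hbφ
  have hev : ∀ᶠ n in atTop, C.κ (C.κ.symm (b (φ n))) = b (φ n) := by
    have h1 : ∀ᶠ n in atTop, b (φ n) ∈ C.κ.target :=
      hbφ (C.κ.open_target.mem_nhds h0t)
    filter_upwards [h1] with n hn
    exact C.κ.right_inv hn
  have hlim : Tendsto (fun n => (‖b (φ n)‖)⁻¹ • C.κ (C.κ.symm (b (φ n)))) atTop (𝓝 X) := by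
    refine hφX.congr' ?_
    filter_upwards [hev] with n hn
    simp only [Function.comp_apply]
    rw [hn]
  obtain ⟨γ, hγ1, hγd⟩ := hO C X
  have hpos : ∀ t : ℝ, 0 ≤ t → γ t ∈ K := by
    intro t ht
    have h1 := hE C X (fun n => C.κ.symm (b (φ n))) (fun n => ‖b (φ n)‖)
      (fun n => norm_pos_iff.mpr (hb0 (φ n))) hbφn hx hlim γ hγ1 hγd t ht
    refine hK.mem_of_tendsto h1 (Eventually.of_forall fun n => ?_)
    exact K.pow_mem (hbK (φ n)) _
  have hg0 : γ 0 = 1 := by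
    have h1 := hγ1.2 0 0
    rw [add_zero] at h1
    exact (mul_eq_left (a := γ 0) (b := γ 0)).mp h1.symm
  have hall : ∀ t : ℝ, γ t ∈ K := by
    intro t
    rcases le_or_gt 0 t with ht | ht
    · exact hpos t ht
    · have h1 := hγ1.2 (-t) t
      rw [neg_add_cancel, hg0] at h1
      have h2 : γ t = (γ (-t))⁻¹ := eq_inv_of_mul_eq_one_right h1.symm
      rw [h2]
      exact K.inv_mem (hpos (-t) (by linarith))
  have hXk : X ∈ k := (hk X).mpr ⟨γ, hγ1, hγd, hall⟩
  have hX0 : X = 0 := by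
    have h1 := hF.disjoint.le_bot (show X ∈ k ⊓ F from ⟨hXk, hXF⟩)
    simpa using h1
  rw [hX0, norm_zero] at hXn
  exact zero_ne_one hXn

end

end Pool.Agent.W660.FQ
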