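import Pool.Agent.W660.FQ.Stm

/-!
Local product decomposition along a closed subgroup (project FQ).  The smoothness of `p` is
stated at `0` only, since a `LieChart` is smooth at `0` only.
-/

set_option linter.unusedSectionVars false

namespace Pool.Agent.W660.FQ

open Pool.Agent.W660.FL
open MeasureTheory Complex Filter Topology
open scoped Manifold ContDiff

noncomputable section

section defs

variable (Q : Type) [Group Q] [TopologicalSpace Q]
  (E : Type) [NormedAddCommGroup E] [NormedSpace ℝ E]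

/-- local product decomposition (smoothness at `0`) -/
def S4_PRJ2 : Prop := ∀ (C : LieChart Q E) (K : Subgroup Q), IsClosed (K : Set Q) →
  ∃ (F : Submodule ℝ E) (p : E → F) (r : ℝ), 0 < r ∧ Metric.ball 0 r ⊆ C.κ.target ∧
    ContDiffAt ℝ ∞ p 0 ∧ ContinuousOn p (Metric.ball 0 r) ∧ p 0 = 0 ∧
    (∀ b : F, ‖b‖ < r → p (b : E) = b) ∧
    (∀ a : E, ‖a‖ < r → ((p a : F) : E) ∈ C.κ.target ∧
      ∃ l ∈ K, C.κ.symm a = l * C.κ.symm ((p a : F) : E)) ∧
    (∀ b b' : F, ‖b‖ < r → ‖b'‖ < r →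
      C.κ.symm (b : E) * (C.κ.symm (b' : E))⁻¹ ∈ K → b = b')

end defs

namespace TPRJ

variable {Q : Type} [Group Q] [TopologicalSpace Q] [IsTopologicalGroup Q]
  {E : Type} [NormedAddCommGroup E] [NormedSpace ℝ E]

theorem zero_mem (C : LieChart Q E) : (0 : E) ∈ C.κ.target := by
  rw [← C.map_one]; exact C.κ.map_source C.one_mem

theorem symm_zero (C : LieChart Q E) : C.κ.symm 0 = 1 := by
  rw [← C.map_one]; exact C.κ.left_inv C.one_mem

theorem cont_symm (C : LieChart Q E) : ContinuousAt C.κ.symm 0 :=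
  C.κ.continuousAt_symm (zero_mem C)

theorem cont_k (C : LieChart Q E) : ContinuousAt C.κ 1 :=
  C.κ.continuousAt C.one_mem

theorem ev_target (C : LieChart Q E) : ∀ᶠ a in 𝓝 (0 : E), a ∈ C.κ.target :=
  C.κ.open_target.mem_nhds (zero_mem C)

theorem ev_source (C : LieChart Q E) : ∀ᶠ x in 𝓝 (1 : Q), x ∈ C.κ.source :=
  C.κ.open_source.mem_nhds C.one_mem

/-- derivative of the multiplication -/
theorem mul_der (C : LieChart Q E) : HasFDerivAt (fun p : E × E => C.κ (C.κ.symm p.1 * C.κ.symm p.2))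
    (ContinuousLinearMap.fst ℝ E E + ContinuousLinearMap.snd ℝ E E) (0, 0) := by
  have hd := (C.mul.differentiableAt (by simp)).hasFDerivAt
  have h1 : HasFDerivAt (fun a : E => (a, (0 : E))) (ContinuousLinearMap.inl ℝ E E) 0 :=
    (ContinuousLinearMap.inl ℝ E E).hasFDerivAt
  have h2 : HasFDerivAt (fun a : E => ((0 : E), a)) (ContinuousLinearMap.inr ℝ E E) 0 :=
    (ContinuousLinearMap.inr ℝ E E).hasFDerivAt
  set D := fderiv ℝ (fun p : E × E => C.κ (C.κ.symm p.1 * C.κ.symm p.2)) (0, 0) with hD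
  have h3 : HasFDerivAt (fun a : E => C.κ (C.κ.symm a * C.κ.symm 0)) (D.comp (ContinuousLinearMap.inl ℝ E E)) 0 :=
    HasFDerivAt.comp (f := fun a : E => (a, (0 : E))) (0 : E) hd h1
  have h4 : HasFDerivAt (fun a : E => C.κ (C.κ.symm 0 * C.κ.symm a)) (D.comp (ContinuousLinearMap.inr ℝ E E)) 0 :=
    HasFDerivAt.comp (f := fun a : E => ((0 : E), a)) (0 : E) hd h2
  have h5 : HasFDerivAt (fun a : E => C.κ (C.κ.symm a * C.κ.symm 0)) (ContinuousLinearMap.id ℝ E) 0 := by
    refine (hasFDerivAt_id (𝕜 := ℝ) (0 : E)).congr_of_eventuallyEq ?_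
    filter_upwards [ev_target C] with a ha
    rw [symm_zero, mul_one, C.κ.right_inv ha]
    rfl
  have h6 : HasFDerivAt (fun a : E => C.κ (C.κ.symm 0 * C.κ.symm a)) (ContinuousLinearMap.id ℝ E) 0 := by
    refine (hasFDerivAt_id (𝕜 := ℝ) (0 : E)).congr_of_eventuallyEq ?_
    filter_upwards [ev_target C] with a ha
    rw [symm_zero, one_mul, C.κ.right_inv ha]
    rfl
  have e1 := h3.unique h5
  have e2 := h4.unique h6
  have e3 : D = ContinuousLinearMap.fst ℝ E E + ContinuousLinearMap.snd ℝ E E := by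
    apply ContinuousLinearMap.ext
    rintro ⟨u, v⟩
    have e4 := congrArg (fun T : E →L[ℝ] E => T u) e1
    have e5 := congrArg (fun T : E →L[ℝ] E => T v) e2
    simp only [ContinuousLinearMap.comp_apply, ContinuousLinearMap.inl_apply, ContinuousLinearMap.inr_apply,
      ContinuousLinearMap.id_apply] at e4 e5
    have e6 : ((u, v) : E × E) = (u, 0) + (0, v) := by simp
    rw [e6, map_add, e4, e5]
    simp
  rw [← e3]
  exact hd

/-- maps into the group which are smooth at `0` in the chart -/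
structure Good (C : LieChart Q E) (P : E → Q) (L : E →L[ℝ] E) : Prop where
  one : P 0 = 1
  cont : ContinuousAt P 0
  smooth : ContDiffAt ℝ ∞ (fun a => C.κ (P a)) 0
  der : HasFDerivAt (fun a => C.κ (P a)) L 0

theorem good_one (C : LieChart Q E) : Good C (fun _ => 1) 0 :=
  ⟨rfl, continuousAt_const, contDiffAt_const, hasFDerivAt_const _ _⟩

theorem good_mul {C : LieChart Q E} {P P' : E → Q} {L L' : E →L[ℝ] E} (h : Good C P L) (h' : Good C P' L') :
    Good C (fun a => P a * P' a) (L + L') := by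
  have hev : (fun a => C.κ (P a * P' a)) =ᶠ[𝓝 0]
      fun a => (fun p : E × E => C.κ (C.κ.symm p.1 * C.κ.symm p.2)) (C.κ (P a), C.κ (P' a)) := by
    have h1 := h.cont
    have h2 := h'.cont
    unfold ContinuousAt at h1 h2
    rw [h.one] at h1
    rw [h'.one] at h2
    filter_upwards [h1.eventually (ev_source C), h2.eventually (ev_source C)] with a h3 h4
    show C.κ (P a * P' a) = C.κ (C.κ.symm (C.κ (P a)) * C.κ.symm (C.κ (P' a)))
    rw [C.κ.left_inv h3, C.κ.left_inv h4]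
  have h00 : (C.κ (P 0), C.κ (P' 0)) = ((0 : E), (0 : E)) := by
    rw [h.one, h'.one, C.map_one]
  refine ⟨by rw [h.one, h'.one, mul_one], h.cont.mul h'.cont, ?_, ?_⟩
  · refine ContDiffAt.congr_of_eventuallyEq ?_ hev
    have h5 : ContDiffAt ℝ ∞ (fun a => (C.κ (P a), C.κ (P' a))) 0 := h.smooth.prodMk h'.smooth
    refine ContDiffAt.comp (g := fun p : E × E => C.κ (C.κ.symm p.1 * C.κ.symm p.2)) (0 : E) ?_ h5
    rw [h00]
    exact C.mul
  · refine HasFDerivAt.congr_of_eventuallyEq ?_ hev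
    have h5 : HasFDerivAt (fun a => (C.κ (P a), C.κ (P' a))) (L.prod L') 0 := h.der.prodMk h'.der
    have h6 : HasFDerivAt (fun p : E × E => C.κ (C.κ.symm p.1 * C.κ.symm p.2))
        (ContinuousLinearMap.fst ℝ E E + ContinuousLinearMap.snd ℝ E E) ((fun a => (C.κ (P a), C.κ (P' a))) 0) := by
      show HasFDerivAt _ _ (C.κ (P 0), C.κ (P' 0))
      rw [h00]
      exact mul_der C
    have h7 := HasFDerivAt.comp (0 : E) h6 h5
    refine h7.congr_fderiv ?_
    ext a
    simp

theorem good_symm (C : LieChart Q E) (T : E →L[ℝ] E) : Good C (fun a => C.κ.symm (T a)) T := by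
  have hev : (fun a => C.κ (C.κ.symm (T a))) =ᶠ[𝓝 0] fun a => T a := by
    have h1 : Tendsto T (𝓝 0) (𝓝 0) := by
      have := T.continuous.tendsto 0
      rwa [map_zero] at this
    filter_upwards [h1.eventually (ev_target C)] with a h3
    rw [C.κ.right_inv h3]
  refine ⟨by simp [symm_zero], ?_, ?_, ?_⟩
  · have h2 : ContinuousAt C.κ.symm (T 0) := by rw [map_zero]; exact cont_symm C
    exact ContinuousAt.comp (f := fun a => T a) h2 T.continuous.continuousAt
  · exact ContDiffAt.congr_of_eventuallyEq T.contDiff.contDiffAt hev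
  · exact HasFDerivAt.congr_of_eventuallyEq T.hasFDerivAt hev

theorem isOne_zero {γ : ℝ → Q} (h : IsOne γ) : γ 0 = 1 := by
  have h1 := h.2 0 0
  rw [add_zero] at h1
  exact (mul_eq_left.1 h1.symm)

theorem good_gamma {C : LieChart Q E} {γ : ℝ → Q} (h : IsOne γ) {X : E}
    (hX : HasDerivAt (fun t => C.κ (γ t)) X 0) (hs : ContDiffAt ℝ ∞ (fun t => C.κ (γ t)) 0)
    (φ : E →L[ℝ] ℝ) : Good C (fun a => γ (φ a)) (φ.smulRight X) := by
  refine ⟨by rw [map_zero]; exact isOne_zero h, (h.1.comp φ.continuous).continuousAt, ?_, ?_⟩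
  · refine ContDiffAt.comp (g := fun t => C.κ (γ t)) (0 : E) ?_ φ.contDiff.contDiffAt
    rw [map_zero]
    exact hs
  · have h1 : HasFDerivAt (fun t => C.κ (γ t)) (ContinuousLinearMap.toSpanSingleton ℝ X) (φ 0) := by
      rw [map_zero]
      exact hX.hasFDerivAt
    have h2 := HasFDerivAt.comp (0 : E) h1 φ.hasFDerivAt
    refine h2.congr_fderiv ?_
    ext a
    simp

theorem exP (C : LieChart Q E) (hSMO : ∀ (X : E) (γ : ℝ → Q), IsOne γ →
      HasDerivAt (fun t => C.κ (γ t)) X 0 → ContDiffAt ℝ ∞ (fun t => C.κ (γ t)) 0) (K : Subgroup Q) :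
    ∀ (n : ℕ) (X : Fin n → E) (φ : Fin n → (E →L[ℝ] ℝ)),
      (∀ i, ∃ γ : ℝ → Q, IsOne γ ∧ HasDerivAt (fun t => C.κ (γ t)) (X i) 0 ∧ ∀ t, γ t ∈ K) →
      ∃ P : E → Q, Good C P (∑ i, (φ i).smulRight (X i)) ∧ (∀ a, P a ∈ K) ∧
        ∀ a a', (∀ i, φ i a = φ i a') → P a = P a' := by
  intro n
  induction n with
  | zero =>
    intro X φ _
    refine ⟨fun _ => 1, ?_, fun _ => K.one_mem, fun _ _ _ => rfl⟩
    simpa using good_one C
  | succ n ih =>
    intro X φ h
    obtain ⟨P, h1, h2, h3⟩ := ih (fun i => X i.succ) (fun i => φ i.succ) (fun i => h i.succ)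
    obtain ⟨γ, g1, g2, g3⟩ := h 0
    refine ⟨fun a => γ (φ 0 a) * P a, ?_, fun a => K.mul_mem (g3 _) (h2 a), ?_⟩
    · rw [Fin.sum_univ_succ]
      exact good_mul (good_gamma g1 g2 (hSMO _ _ g1 g2) (φ 0)) h1
    · intro a a' haa
      simp only
      rw [haa 0, h3 a a' (fun i => haa i.succ)]

end TPRJ

open TPRJ

variable (Q : Type) [Group Q] [TopologicalSpace Q] [IsTopologicalGroup Q] [T2Space Q]
  (E : Type) [NormedAddCommGroup E] [NormedSpace ℝ E] [FiniteDimensional ℝ E]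

theorem t4_PRJ2 : S_OPS Q E → S4_SMO Q E → S4_LIN Q E → S4_LOC Q E → S4_PRJ2 Q E := by
  classical
  intro _ hSMO hLIN hLOC C K hK
  have hcomplete : CompleteSpace E := FiniteDimensional.complete ℝ E
  obtain ⟨k, hk⟩ := hLIN C K hK
  obtain ⟨F, hF⟩ := Submodule.exists_isCompl k
  obtain ⟨rL, hrL, hloc⟩ := hLOC C K hK k hk F hF
  -- the projections
  let πk : E →ₗ[ℝ] k := k.projectionOnto F hF
  let πF : E →ₗ[ℝ] F := F.projectionOnto k hF.symm
  let πFc : E →L[ℝ] F := LinearMap.toContinuousLinearMap πF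
  let TF : E →L[ℝ] E := F.subtypeL.comp πFc
  let b := Module.finBasis ℝ k
  let φ : Fin (Module.finrank ℝ k) → (E →L[ℝ] ℝ) := fun i => LinearMap.toContinuousLinearMap ((b.coord i).comp πk)
  obtain ⟨P, hP, hPK, hPφ⟩ := exP C (hSMO C) K (Module.finrank ℝ k) (fun i => ((b i : k) : E)) φ
    (fun i => (hk _).1 (b i).2)
  have hφk : ∀ a a' : E, πk a = πk a' → ∀ i, φ i a = φ i a' := by
    intro a a' h i
    show (b.coord i) (πk a) = (b.coord i) (πk a')
    rw [h]
  have hφF : ∀ (a : E) (c : F) (i), φ i (a + (c : E)) = φ i a := by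
    intro a c i
    have : πk (a + (c : E)) = πk a := by
      rw [map_add, show πk (c : E) = 0 from Submodule.projectionOnto_apply_right hF c, add_zero]
    exact hφk _ _ this i
  have hTFF : ∀ c : F, TF (c : E) = (c : E) := by
    intro c
    show ((πF (c : E) : F) : E) = (c : E)
    rw [show πF (c : E) = c from Submodule.projectionOnto_apply_left hF.symm c]
  have hsum : (∑ i, (φ i).smulRight (((b i : k) : E))) + TF = ContinuousLinearMap.id ℝ E := by
    ext a
    have h1 : ∑ i, (b.repr (πk a) i) • (b i) = πk a := b.sum_repr (πk a)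
    have h2 := congrArg (fun v : k => (v : E)) h1
    simp only [Submodule.coe_sum, Submodule.coe_smul] at h2
    have h3 : ((πk a : k) : E) + ((πF a : F) : E) = a := by
      have := Submodule.projection_add_projection_eq_self hF a
      exact this
    simp only [_root_.add_apply, _root_.sum_apply, ContinuousLinearMap.smulRight_apply,
      ContinuousLinearMap.id_apply]
    conv_rhs => rw [← h3]
    congr 1
  have hΨg := good_mul hP (good_symm C TF)
  rw [hsum] at hΨg
  set Ψ : E → E := fun a => C.κ (P a * C.κ.symm (TF a)) with hΨdef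
  have hΨs : ContDiffAt ℝ ∞ Ψ 0 := hΨg.smooth
  have hΨd : HasFDerivAt Ψ (((ContinuousLinearEquiv.refl ℝ E) : E ≃L[ℝ] E) : E →L[ℝ] E) 0 := by
    refine hΨg.der.congr_fderiv ?_
    ext a
    simp
  have hn : (∞ : WithTop ℕ∞) ≠ 0 := by simp
  have hΨ0 : Ψ 0 = 0 := by
    rw [hΨdef]
    simp only
    rw [hP.one, map_zero, symm_zero, mul_one, C.map_one]
  let G := hΨs.toOpenPartialHomeomorph Ψ hΨd hn
  have hG0 : (0 : E) ∈ G.source := hΨs.mem_toOpenPartialHomeomorph_source hΨd hn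
  have hG0t : (0 : E) ∈ G.target := by
    have := hΨs.image_mem_toOpenPartialHomeomorph_target hΨd hn
    rw [hΨ0] at this
    exact this
  have hGc : ∀ a, G a = Ψ a := fun a => rfl
  let θ : E → E := G.symm
  have hθ0 : θ 0 = 0 := by
    have := G.left_inv hG0
    rw [hGc, hΨ0] at this
    exact this
  have hθs : ContDiffAt ℝ ∞ θ 0 := by
    have := hΨs.to_localInverse hΨd hn
    rw [hΨ0] at this
    exact this
  have hθc : ContinuousAt θ 0 := hθs.continuousAt
  -- limits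
  have hPc : Tendsto P (𝓝 0) (𝓝 1) := by
    have := hP.cont
    unfold ContinuousAt at this
    rwa [hP.one] at this
  have hθt : Tendsto θ (𝓝 0) (𝓝 0) := by
    have := hθc
    unfold ContinuousAt at this
    rwa [hθ0] at this
  have hTFt : Tendsto TF (𝓝 0) (𝓝 0) := by
    have := TF.continuous.tendsto 0
    rwa [map_zero] at this
  have hTθ : Tendsto (fun a => TF (θ a)) (𝓝 0) (𝓝 0) := hTFt.comp hθt
  have hsy : Tendsto C.κ.symm (𝓝 0) (𝓝 1) := by
    have := cont_symm C
    unfold ContinuousAt at this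
    rwa [symm_zero] at this
  have hkt : Tendsto C.κ (𝓝 1) (𝓝 0) := by
    have := cont_k C
    unfold ContinuousAt at this
    rwa [C.map_one] at this
  have hprod : Tendsto (fun a => P (θ a) * C.κ.symm (TF (θ a))) (𝓝 0) (𝓝 1) := by
    have := (hPc.comp hθt).mul (hsy.comp hTθ)
    rw [mul_one] at this
    exact this
  have N1 : ∀ᶠ a in 𝓝 (0 : E), a ∈ G.target ∧ TF (θ a) ∈ C.κ.target ∧
      C.κ.symm a = P (θ a) * C.κ.symm (TF (θ a)) := by
    filter_upwards [G.open_target.mem_nhds hG0t, hTθ.eventually (ev_target C), hprod.eventually (ev_source C)]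
      with a h1 h2 h3
    refine ⟨h1, h2, ?_⟩
    have h4 : Ψ (θ a) = a := G.right_inv h1
    rw [← C.κ.left_inv h3]
    show C.κ.symm a = C.κ.symm (Ψ (θ a))
    rw [h4]
  have hGs : ∀ᶠ a in 𝓝 (0 : E), a ∈ G.source := G.open_source.mem_nhds hG0
  have N2 : ∀ᶠ a in 𝓝 (0 : E), a ∈ G.source ∧ a ∈ C.κ.target := hGs.and (ev_target C)
  have hPF : ∀ c : F, P (c : E) = 1 := by
    intro c
    rw [← hP.one]
    refine hPφ _ _ (fun i => ?_)
    have := hφF 0 c i
    rwa [zero_add] at this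
  have hΨF : ∀ c : F, (c : E) ∈ C.κ.target → Ψ (c : E) = c := by
    intro c hc
    show C.κ (P (c : E) * C.κ.symm (TF (c : E))) = c
    rw [hPF, hTFF, one_mul, C.κ.right_inv hc]
  have hz : Tendsto (fun q : E × E => C.κ.symm q.1 * (C.κ.symm q.2)⁻¹) (𝓝 ((0 : E), (0 : E))) (𝓝 1) := by
    have h1 : Tendsto (fun q : E × E => C.κ.symm q.1) (𝓝 ((0 : E), (0 : E))) (𝓝 1) :=
      hsy.comp (continuous_fst.tendsto ((0 : E), (0 : E)))
    have h2 : Tendsto (fun q : E × E => C.κ.symm q.2) (𝓝 ((0 : E), (0 : E))) (𝓝 1) :=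
      hsy.comp (continuous_snd.tendsto ((0 : E), (0 : E)))
    have := h1.mul h2.inv
    rw [inv_one, mul_one] at this
    exact this
  have hkz : Tendsto (fun q : E × E => C.κ (C.κ.symm q.1 * (C.κ.symm q.2)⁻¹)) (𝓝 ((0 : E), (0 : E))) (𝓝 0) :=
    hkt.comp hz
  have hθz : Tendsto (fun q : E × E => θ (C.κ (C.κ.symm q.1 * (C.κ.symm q.2)⁻¹))) (𝓝 ((0 : E), (0 : E))) (𝓝 0) :=
    hθt.comp hkz
  have hTz : Tendsto (fun q : E × E => TF (θ (C.κ (C.κ.symm q.1 * (C.κ.symm q.2)⁻¹)))) (𝓝 ((0 : E), (0 : E)))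
      (𝓝 0) := hTFt.comp hθz
  have hsz : Tendsto (fun q : E × E => θ (C.κ (C.κ.symm q.1 * (C.κ.symm q.2)⁻¹)) + q.2) (𝓝 ((0 : E), (0 : E)))
      (𝓝 0) := by
    have := hθz.add (continuous_snd.tendsto ((0 : E), (0 : E)))
    rw [add_zero] at this
    exact this
  have N3 : ∀ᶠ q : E × E in 𝓝 ((0 : E), (0 : E)), (C.κ.symm q.1 * (C.κ.symm q.2)⁻¹) ∈ C.κ.source ∧
      C.κ.symm (C.κ (C.κ.symm q.1 * (C.κ.symm q.2)⁻¹)) =
        P (θ (C.κ (C.κ.symm q.1 * (C.κ.symm q.2)⁻¹))) *
          C.κ.symm (TF (θ (C.κ (C.κ.symm q.1 * (C.κ.symm q.2)⁻¹)))) ∧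
      ‖TF (θ (C.κ (C.κ.symm q.1 * (C.κ.symm q.2)⁻¹)))‖ < rL ∧
      θ (C.κ (C.κ.symm q.1 * (C.κ.symm q.2)⁻¹)) + q.2 ∈ G.source := by
    have h4 : ∀ᶠ v in 𝓝 (0 : E), ‖v‖ < rL := by
      have : ∀ᶠ v in 𝓝 (0 : E), v ∈ Metric.ball (0 : E) rL := Metric.ball_mem_nhds 0 hrL
      filter_upwards [this] with v hv
      simpa using hv
    filter_upwards [hz.eventually (ev_source C), hkz.eventually N1, hTz.eventually h4,
      hsz.eventually hGs] with q h1 h2 h3 h5
    exact ⟨h1, h2.2.2, h3, h5⟩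
  obtain ⟨r1, hr1, H1⟩ := Metric.eventually_nhds_iff_ball.1 N1
  obtain ⟨r2, hr2, H2⟩ := Metric.eventually_nhds_iff_ball.1 N2
  obtain ⟨r3, hr3, H3⟩ := Metric.eventually_nhds_iff_ball.1 N3
  refine ⟨F, fun a => πFc (θ a), min r1 (min r2 r3), by positivity, ?_, ?_, ?_, ?_, ?_, ?_, ?_⟩
  · intro a ha
    exact (H2 a (Metric.ball_subset_ball ((min_le_right _ _).trans (min_le_left _ _)) ha)).2
  · exact πFc.contDiff.contDiffAt.comp (0 : E) hθs
  · apply πFc.continuous.comp_continuousOn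
    refine G.symm.continuousOn.mono ?_
    intro a ha
    exact (H1 a (Metric.ball_subset_ball (min_le_left _ _) ha)).1
  · show πFc (θ 0) = 0
    rw [hθ0, map_zero]
  · intro c hc
    have h1 : (c : E) ∈ Metric.ball (0 : E) r2 := by
      rw [mem_ball_zero_iff]
      exact lt_of_lt_of_le hc ((min_le_right _ _).trans (min_le_left _ _))
    have h2 := H2 _ h1
    have h3 : θ (c : E) = c := by
      have h4 := G.left_inv h2.1
      rw [hGc, hΨF c h2.2] at h4
      exact h4
    show πFc (θ (c : E)) = c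
    rw [h3]
    exact Submodule.projectionOnto_apply_left hF.symm c
  · intro a ha
    have h1 : a ∈ Metric.ball (0 : E) r1 := by
      rw [mem_ball_zero_iff]
      exact lt_of_lt_of_le ha (min_le_left _ _)
    have h2 := H1 a h1
    exact ⟨h2.2.1, P (θ a), hPK _, h2.2.2⟩
  · intro c c' hc hc' hcK
    have hc3 : ‖c‖ < r3 := lt_of_lt_of_le hc ((min_le_right _ _).trans (min_le_right _ _))
    have hc3' : ‖c'‖ < r3 := lt_of_lt_of_le hc' ((min_le_right _ _).trans (min_le_right _ _))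
    have hc2 : (c : E) ∈ Metric.ball (0 : E) r2 := by
      rw [mem_ball_zero_iff]
      exact lt_of_lt_of_le hc ((min_le_right _ _).trans (min_le_left _ _))
    have hq : (((c : E), (c' : E)) : E × E) ∈ Metric.ball ((0 : E), (0 : E)) r3 := by
      have : ((0 : E), (0 : E)) = (0 : E × E) := rfl
      rw [this, mem_ball_zero_iff, Prod.norm_def]
      exact max_lt hc3 hc3'
    obtain ⟨h1, h2, h3, h4⟩ := H3 _ hq
    simp only at h1 h2 h3 h4
    set z := C.κ.symm (c : E) * (C.κ.symm (c' : E))⁻¹ with hzdef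
    set t := θ (C.κ z) with ht
    rw [C.κ.left_inv h1] at h2
    have h5 : C.κ.symm (TF t) ∈ K := by
      have : C.κ.symm (TF t) = (P t)⁻¹ * z := by rw [h2]; group
      rw [this]
      exact K.mul_mem (K.inv_mem (hPK _)) hcK
    have h6 : TF t = 0 := hloc _ (πF t).2 h3 h5
    rw [h6, symm_zero, mul_one] at h2
    -- injectivity
    have h7 : P (t + (c' : E)) = P t := hPφ _ _ (fun i => hφF t c' i)
    have h8 : Ψ (t + (c' : E)) = c := by
      show C.κ (P (t + (c' : E)) * C.κ.symm (TF (t + (c' : E)))) = c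
      rw [h7, map_add, h6, zero_add, hTFF, ← h2, hzdef, inv_mul_cancel_right]
      exact C.κ.right_inv (H2 _ hc2).2
    have h9 : t + (c' : E) = c := by
      apply G.injOn h4 (H2 _ hc2).1
      rw [hGc, hGc, h8, hΨF c (H2 _ hc2).2]
    have h10 := congrArg TF h9
    rw [map_add, h6, zero_add, hTFF, hTFF] at h10
    exact Subtype.ext h10.symm

end

end Pool.Agent.W660.FQ
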