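import Pool.Agent.W660.FQ.Stm

/-! Smoothness of one-parameter subgroups (part SMO of project FQ). -/

set_option linter.unusedSectionVars false

namespace Pool.Agent.W660.FQ

open Pool.Agent.W660.FL
open MeasureTheory Complex Filter Topology
open scoped Manifold ContDiff

noncomputable section

namespace TSMO

section

variable {Q : Type} [Group Q] [TopologicalSpace Q] [IsTopologicalGroup Q]
  {E : Type} [NormedAddCommGroup E] [NormedSpace ℝ E]

/-- the product in the chart -/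
def M (C : LieChart Q E) (p : E × E) : E := C.κ (C.κ.symm p.1 * C.κ.symm p.2)

/-- the left invariant vector field -/
def Y (C : LieChart Q E) (X a : E) : E := fderiv ℝ (M C) (a, 0) (0, X)

theorem one_zero (γ : ℝ → Q) (hγ : IsOne γ) : γ 0 = 1 := by
  have h := hγ.2 0 0
  rw [add_zero] at h
  have h2 := congrArg (fun z => (γ 0)⁻¹ * z) h
  simpa using h2.symm

theorem contDiffAt_M (C : LieChart Q E) : ContDiffAt ℝ ∞ (M C) (0, 0) := C.mul

theorem contDiffAt_Y (C : LieChart Q E) (X : E) (n : ℕ) : ContDiffAt ℝ n (Y C X) 0 := by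
  have h1 : ContDiffAt ℝ n (fderiv ℝ (M C)) (0, 0) :=
    (contDiffAt_M C).fderiv_right (by exact_mod_cast le_top)
  have h2 : ContDiffAt ℝ n (fun a : E => fderiv ℝ (M C) (a, (0 : E))) 0 :=
    ContDiffAt.comp (0 : E) (g := fderiv ℝ (M C)) (f := fun a : E => (a, (0 : E))) h1
      (contDiffAt_id.prodMk contDiffAt_const)
  exact h2.clm_apply contDiffAt_const

/-- the differential equation -/
theorem ode (C : LieChart Q E) (X : E) (γ : ℝ → Q) (hγ : IsOne γ)
    (hd : HasDerivAt (fun t => C.κ (γ t)) X 0) :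
    ∀ᶠ t in 𝓝 (0 : ℝ), HasDerivAt (fun t => C.κ (γ t)) (Y C X (C.κ (γ t))) t := by
  have h0 : γ 0 = 1 := one_zero γ hγ
  have hk0 : C.κ (γ 0) = 0 := by rw [h0, C.map_one]
  have hsrc : ∀ᶠ t in 𝓝 (0 : ℝ), γ t ∈ C.κ.source := by
    apply hγ.1.continuousAt.eventually_mem
    rw [h0]
    exact C.κ.open_source.mem_nhds C.one_mem
  have hdiff : ∀ᶠ p in 𝓝 ((0, 0) : E × E), DifferentiableAt ℝ (M C) p := by
    have h1 : ContDiffAt ℝ 1 (M C) (0, 0) := (contDiffAt_M C).of_le (by norm_cast)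
    filter_upwards [h1.eventually (by norm_num)] with p hp
    exact hp.differentiableAt (by norm_num)
  have ht : Tendsto (fun t : ℝ => (C.κ (γ t), (0 : E))) (𝓝 0) (𝓝 (0, 0)) := by
    have h1 : ContinuousAt (fun t : ℝ => (C.κ (γ t), (0 : E))) 0 :=
      hd.continuousAt.prodMk continuousAt_const
    have h2 := h1.tendsto
    rw [hk0] at h2
    exact h2
  filter_upwards [hsrc, ht.eventually hdiff] with t hts htd
  have h1 : HasDerivAt (fun r : ℝ => (C.κ (γ t), C.κ (γ r))) ((0 : E), X) 0 :=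
    (hasDerivAt_const (0 : ℝ) (C.κ (γ t))).prodMk hd
  have h2 : HasDerivAt (fun r : ℝ => M C (C.κ (γ t), C.κ (γ r))) (Y C X (C.κ (γ t))) 0 := by
    have h3 : HasFDerivAt (M C) (fderiv ℝ (M C) (C.κ (γ t), 0))
        ((fun r : ℝ => (C.κ (γ t), C.κ (γ r))) 0) := by
      have : ((fun r : ℝ => (C.κ (γ t), C.κ (γ r))) 0) = (C.κ (γ t), (0 : E)) := by
        change (C.κ (γ t), C.κ (γ 0)) = (C.κ (γ t), (0 : E))
        rw [hk0]
      rw [this]
      exact htd.hasFDerivAt
    exact h3.comp_hasDerivAt (0 : ℝ) h1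
  have h4 : HasDerivAt (fun s : ℝ => M C (C.κ (γ t), C.κ (γ (s - t)))) (Y C X (C.κ (γ t))) t := by
    have h2' : HasDerivAt (fun r : ℝ => M C (C.κ (γ t), C.κ (γ r))) (Y C X (C.κ (γ t)))
        (t - t) := by rw [sub_self]; exact h2
    exact HasDerivAt.comp_sub_const t t h2'
  refine h4.congr_of_eventuallyEq ?_
  have h5 : Tendsto (fun s : ℝ => s - t) (𝓝 t) (𝓝 0) := by
    have h6 : ContinuousAt (fun s : ℝ => s - t) t := by fun_prop
    have h7 := h6.tendsto
    rw [sub_self] at h7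
    exact h7
  filter_upwards [h5.eventually hsrc] with s hs
  change C.κ (γ s) = C.κ (C.κ.symm (C.κ (γ t)) * C.κ.symm (C.κ (γ (s - t))))
  rw [C.κ.left_inv hts, C.κ.left_inv hs, ← hγ.2, add_sub_cancel]

end

end TSMO

variable (Q : Type) [Group Q] [TopologicalSpace Q] [IsTopologicalGroup Q] [T2Space Q]
  (E : Type) [NormedAddCommGroup E] [NormedSpace ℝ E] [FiniteDimensional ℝ E]

open TSMO in
theorem t4_SMO : S4_SMO Q E := by
  intro C X γ hγ hd
  have h0 : γ 0 = 1 := one_zero γ hγ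
  have hk0 : C.κ (γ 0) = 0 := by rw [h0, C.map_one]
  have hode := ode C X γ hγ hd
  rw [contDiffAt_infty]
  intro n
  induction n with
  | zero =>
    have : ((0 : ℕ) : WithTop ℕ∞) = 0 := by norm_num
    rw [this, contDiffAt_zero]
    exact ⟨_, hode, fun t ht => (HasDerivAt.continuousAt ht).continuousWithinAt⟩
  | succ n ih =>
    have : ((n + 1 : ℕ) : WithTop ℕ∞) = (n : WithTop ℕ∞) + 1 := by norm_num
    rw [this, contDiffAt_succ_iff_hasFDerivAt]
    refine ⟨fun t => ContinuousLinearMap.smulRight (1 : ℝ →L[ℝ] ℝ) (Y C X (C.κ (γ t))),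
      ⟨_, hode, fun t ht => HasDerivAt.hasFDerivAt ht⟩, ?_⟩
    have h1 : ContDiffAt ℝ n (fun t => Y C X (C.κ (γ t))) 0 := by
      have h2 : ContDiffAt ℝ n (Y C X) (C.κ (γ 0)) := by
        rw [hk0]; exact contDiffAt_Y C X n
      exact ContDiffAt.comp (0 : ℝ) (g := Y C X) (f := fun t => C.κ (γ t)) h2 ih
    exact contDiffAt_const.smulRight h1

end

end Pool.Agent.W660.FQ
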