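import Pool.Agent.W660.FL.Stm

/-!
Quotients of Lie groups by closed normal subgroups are Lie groups (in terms of `LieChart`).
-/

namespace Pool.Agent.W660.FQ

open Pool.Agent.W660.FL
open MeasureTheory Complex Filter Topology
open scoped Manifold ContDiff

noncomputable section

variable (Q : Type) [Group Q] [TopologicalSpace Q] [IsTopologicalGroup Q] [T2Space Q]
  (E : Type) [NormedAddCommGroup E] [NormedSpace ℝ E] [FiniteDimensional ℝ E]

/-- uniqueness of one-parameter subgroups -/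
def S4_UNQ : Prop := ∀ (C : LieChart Q E) (X : E) (γ γ' : ℝ → Q), IsOne γ → IsOne γ' →
  HasDerivAt (fun t => C.κ (γ t)) X 0 → HasDerivAt (fun t => C.κ (γ' t)) X 0 → γ = γ'

/-- smoothness of one-parameter subgroups -/
def S4_SMO : Prop := ∀ (C : LieChart Q E) (X : E) (γ : ℝ → Q), IsOne γ →
  HasDerivAt (fun t => C.κ (γ t)) X 0 → ContDiffAt ℝ ∞ (fun t => C.κ (γ t)) 0

/-- convergence of powers -/
def S4_EUL : Prop := ∀ (C : LieChart Q E) (X : E) (x : ℕ → Q) (h : ℕ → ℝ), (∀ n, 0 < h n) →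
  Tendsto h atTop (𝓝 0) → Tendsto x atTop (𝓝 1) →
  Tendsto (fun n => (h n)⁻¹ • C.κ (x n)) atTop (𝓝 X) → ∀ γ : ℝ → Q, IsOne γ →
  HasDerivAt (fun t => C.κ (γ t)) X 0 → ∀ t, 0 ≤ t →
  Tendsto (fun n => x n ^ ⌊t / h n⌋₊) atTop (𝓝 (γ t))

/-- the Lie algebra of a closed subgroup is a linear subspace -/
def S4_LIN : Prop := ∀ (C : LieChart Q E) (K : Subgroup Q), IsClosed (K : Set Q) →
  ∃ k : Submodule ℝ E, ∀ X, X ∈ k ↔
    ∃ γ : ℝ → Q, IsOne γ ∧ HasDerivAt (fun t => C.κ (γ t)) X 0 ∧ ∀ t, γ t ∈ K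

/-- a closed subgroup is transversal to a complement of its Lie algebra -/
def S4_LOC : Prop := ∀ (C : LieChart Q E) (K : Subgroup Q), IsClosed (K : Set Q) →
  ∀ k : Submodule ℝ E, (∀ X, X ∈ k ↔
    ∃ γ : ℝ → Q, IsOne γ ∧ HasDerivAt (fun t => C.κ (γ t)) X 0 ∧ ∀ t, γ t ∈ K) →
  ∀ F : Submodule ℝ E, IsCompl k F → ∃ r > 0, ∀ b ∈ F, ‖b‖ < r → C.κ.symm b ∈ K → b = 0

/-- local product decomposition -/
def S4_PRJ : Prop := ∀ (C : LieChart Q E) (K : Subgroup Q), IsClosed (K : Set Q) →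
  ∃ (F : Submodule ℝ E) (p : E → F) (r : ℝ), 0 < r ∧ Metric.ball 0 r ⊆ C.κ.target ∧
    ContDiffOn ℝ ∞ p (Metric.ball 0 r) ∧ p 0 = 0 ∧ (∀ b : F, ‖b‖ < r → p (b : E) = b) ∧
    (∀ a : E, ‖a‖ < r → ((p a : F) : E) ∈ C.κ.target ∧
      ∃ l ∈ K, C.κ.symm a = l * C.κ.symm ((p a : F) : E)) ∧
    (∀ b b' : F, ‖b‖ < r → ‖b'‖ < r →
      C.κ.symm (b : E) * (C.κ.symm (b' : E))⁻¹ ∈ K → b = b')

/-- the quotient chart -/
def S4_QC : Prop := ∀ (_ : LieChart Q E) (K : Subgroup Q) [K.Normal], IsClosed (K : Set Q) →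
  ∃ F : Submodule ℝ E, Nonempty (LieChart (Q ⧸ K) F)

/-- transport of charts along a topological isomorphism -/
def S4_ISO : Prop := ∀ (Q' : Type) [Group Q'] [TopologicalSpace Q'] (e : Q ≃* Q'),
  Continuous e → Continuous e.symm → LieChart Q E → Nonempty (LieChart Q' E)

end

end Pool.Agent.W660.FQ
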