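import Pool.Agent.W660.FQ.Stm
import Pool.Agent.W660.FL.T_ODE

/-!
Uniqueness of one-parameter subgroups (project FQ, part UNQ).
-/

set_option linter.unusedSectionVars false

namespace Pool.Agent.W660.FQ

open Pool.Agent.W660.FL
open MeasureTheory Complex Filter Topology
open scoped Manifold ContDiff

noncomputable section

namespace TUNQ

open Pool.Agent.W660.FL.TODE

variable {Q : Type} [Group Q] [TopologicalSpace Q] [IsTopologicalGroup Q]
  {E : Type} [NormedAddCommGroup E] [NormedSpace ℝ E]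

theorem one {γ : ℝ → Q} (h : IsOne γ) : γ 0 = 1 := by
  have h1 := h.2 0 0
  rw [add_zero] at h1
  exact left_eq_mul.1 h1

theorem pw {γ : ℝ → Q} (h : IsOne γ) (s : ℝ) (n : ℕ) : γ (n * s) = γ s ^ n := by
  induction n with
  | zero => rw [Nat.cast_zero, zero_mul, pow_zero, one h]
  | succ n ih => rw [Nat.cast_succ, add_mul, one_mul, h.2, ih, pow_succ]

theorem ode (C : LieChart Q E) (X : E) {γ : ℝ → Q} (h : IsOne γ)
    (hd : HasDerivAt (fun t => C.κ (γ t)) X 0) :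
    ∀ᶠ s in 𝓝 (0 : ℝ), γ s ∈ C.κ.source ∧
      HasDerivAt (fun t => C.κ (γ t)) (Y C X (C.κ (γ s))) s := by
  have h0 : C.κ (γ 0) = 0 := by rw [one h, C.map_one]
  have hsrc : ∀ᶠ s in 𝓝 (0 : ℝ), γ s ∈ C.κ.source := by
    refine h.1.continuousAt.eventually (p := fun z => z ∈ C.κ.source) ?_
    rw [one h]
    exact C.κ.open_source.mem_nhds C.one_mem
  have hdiff : ∀ᶠ p in 𝓝 ((0, 0) : E × E), DifferentiableAt ℝ (M C) p := by
    filter_upwards [(contDiffAt_M C).eventually (by norm_num)] with p hp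
    exact hp.differentiableAt (by norm_num)
  have ht : Tendsto (fun s : ℝ => (C.κ (γ s), (0 : E))) (𝓝 0) (𝓝 (0, 0)) := by
    have h1 : ContinuousAt (fun s : ℝ => (C.κ (γ s), (0 : E))) 0 :=
      hd.continuousAt.prodMk continuousAt_const
    have h2 := h1.tendsto
    rw [h0] at h2
    exact h2
  filter_upwards [hsrc, ht.eventually hdiff] with s hs hM
  refine ⟨hs, ?_⟩
  have e1 : HasDerivAt (fun t : ℝ => M C (C.κ (γ s), C.κ (γ t))) (Y C X (C.κ (γ s))) 0 := by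
    have h1 : HasDerivAt (fun t : ℝ => (C.κ (γ s), C.κ (γ t))) ((0 : E), X) 0 :=
      (hasDerivAt_const (0 : ℝ) (C.κ (γ s))).prodMk hd
    have h3 : HasFDerivAt (M C) (fderiv ℝ (M C) (C.κ (γ s), 0))
        ((fun t : ℝ => (C.κ (γ s), C.κ (γ t))) 0) := by
      have : ((fun t : ℝ => (C.κ (γ s), C.κ (γ t))) 0) = (C.κ (γ s), (0 : E)) := by
        change (C.κ (γ s), C.κ (γ 0)) = (C.κ (γ s), (0 : E))
        rw [h0]
      rw [this]
      exact hM.hasFDerivAt
    exact h3.comp_hasDerivAt (0 : ℝ) h1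
  have e2 : HasDerivAt (fun t : ℝ => C.κ (γ (s + t))) (Y C X (C.κ (γ s))) 0 := by
    refine e1.congr_of_eventuallyEq ?_
    filter_upwards [hsrc] with t ht
    change C.κ (γ (s + t)) = C.κ (C.κ.symm (C.κ (γ s)) * C.κ.symm (C.κ (γ t)))
    rw [C.κ.left_inv hs, C.κ.left_inv ht, h.2]
  have e3 : HasDerivAt (fun t : ℝ => C.κ (γ (s + t))) (Y C X (C.κ (γ s))) (-s + s) := by
    rw [neg_add_cancel]
    exact e2
  have e4 := e3.comp_const_add (-s) s
  have e5 : (fun x : ℝ => C.κ (γ (s + (-s + x)))) = fun t => C.κ (γ t) := by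
    funext x
    rw [add_neg_cancel_left]
  rw [e5] at e4
  exact e4

end TUNQ

open TUNQ Pool.Agent.W660.FL.TODE in
theorem t4_UNQ {Q : Type} [Group Q] [TopologicalSpace Q] [IsTopologicalGroup Q] [T2Space Q]
    {E : Type} [NormedAddCommGroup E] [NormedSpace ℝ E] [FiniteDimensional ℝ E] :
    S4_UNQ Q E := by
  intro C X γ γ' h h' hd hd'
  have : CompleteSpace E := FiniteDimensional.complete ℝ E
  obtain ⟨K, S, hS, hK⟩ := (contDiffAt_Y C X).exists_lipschitzOnWith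
  have h0 : C.κ (γ 0) = 0 := by rw [one h, C.map_one]
  have h0' : C.κ (γ' 0) = 0 := by rw [one h', C.map_one]
  have hcS : ∀ᶠ s in 𝓝 (0 : ℝ), C.κ (γ s) ∈ S := by
    have h1 := hd.continuousAt.tendsto
    rw [h0] at h1
    exact h1.eventually hS
  have hcS' : ∀ᶠ s in 𝓝 (0 : ℝ), C.κ (γ' s) ∈ S := by
    have h1 := hd'.continuousAt.tendsto
    rw [h0'] at h1
    exact h1.eventually hS
  obtain ⟨ε, hε, hball⟩ := Metric.eventually_nhds_iff.1
    (((ode C X h hd).and (ode C X h' hd')).and (hcS.and hcS'))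
  have hgd : ∀ s : ℝ, s ∈ Set.Ioo (-ε) ε → ((γ s ∈ C.κ.source ∧
      HasDerivAt (fun t => C.κ (γ t)) (Y C X (C.κ (γ s))) s) ∧ (γ' s ∈ C.κ.source ∧
      HasDerivAt (fun t => C.κ (γ' t)) (Y C X (C.κ (γ' s))) s)) ∧ C.κ (γ s) ∈ S ∧
      C.κ (γ' s) ∈ S := by
    intro s hs
    refine hball (y := s) ?_
    rw [Real.dist_eq, sub_zero]
    exact abs_lt.2 ⟨hs.1, hs.2⟩
  have heq := ODE_solution_unique_of_mem_Ioo (v := fun _ => Y C X) (s := fun _ => S) (K := K)
      (f := fun t => C.κ (γ t)) (g := fun t => C.κ (γ' t)) (a := -ε) (b := ε) (t₀ := 0)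
      (fun _ _ => hK) ⟨by linarith, hε⟩ (fun t ht => ⟨(hgd t ht).1.1.2, (hgd t ht).2.1⟩)
      (fun t ht => ⟨(hgd t ht).1.2.2, (hgd t ht).2.2⟩) (by
        change C.κ (γ 0) = C.κ (γ' 0)
        rw [h0, h0'])
  have hloc : ∀ s : ℝ, s ∈ Set.Ioo (-ε) ε → γ s = γ' s := by
    intro s hs
    exact C.κ.injOn (hgd s hs).1.1.1 (hgd s hs).1.2.1 (heq hs)
  funext t
  obtain ⟨n, hn⟩ := exists_nat_gt (|t| / ε)
  have hn0 : (0 : ℝ) < n := lt_of_le_of_lt (by positivity) hn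
  have hlt : |t / n| < ε := by
    rw [abs_div, Nat.abs_cast, div_lt_iff₀ hn0]
    rw [div_lt_iff₀ hε] at hn
    linarith
  have h1 := hloc (t / n) ⟨(abs_lt.1 hlt).1, (abs_lt.1 hlt).2⟩
  have e1 : t = n * (t / n) := by field_simp
  rw [e1, pw h, pw h', h1]

end

end Pool.Agent.W660.FQ
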